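import Pool.Agent.H92.WR.LinAlg

set_option autoImplicit false

/-!
Preparations for the core inequality.
-/

namespace Pool.Agent.H92.WR

open Module

section

variable {J P : Type} [Fintype P]

/-- Value of the functional `l` on the vector `u j`. -/
noncomputable def ev (u : J → P → ℂ) (l : P → ℂ) (j : J) : ℂ := ∑ p, l p * u j p

/-- The linear map `l ↦ (ev u l j * g j)_j`. -/
noncomputable def mulmap (u : J → P → ℂ) (g : J → ℂ) : (P → ℂ) →ₗ[ℂ] (J → ℂ) where
  toFun l j := ev u l j * g j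
  map_add' := by
    intro a b
    ext j
    simp only [ev, Pi.add_apply, add_mul, Finset.sum_add_distrib]
  map_smul' := by
    intro c a
    ext j
    simp only [ev, Pi.smul_apply, smul_eq_mul, RingHom.id_apply, mul_assoc, Finset.mul_sum,
      Finset.sum_mul]

theorem mulmap_apply (u : J → P → ℂ) (g : J → ℂ) (l : P → ℂ) (j : J) :
    mulmap u g l j = ev u l j * g j := rfl

/-- Apply a derivation to all coordinates. -/
noncomputable def dc {X : Type} (d : Derivation ℚ ℂ ℂ) (x : X → ℂ) : X → ℂ := fun i => d (x i)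

theorem dc_add {X : Type} (d : Derivation ℚ ℂ ℂ) (x y : X → ℂ) : dc d (x + y) = dc d x + dc d y := by
  ext i; simp [dc]

theorem dc_sub {X : Type} (d : Derivation ℚ ℂ ℂ) (x y : X → ℂ) : dc d (x - y) = dc d x - dc d y := by
  ext i; simp [dc]

theorem dc_smul {X : Type} (d : Derivation ℚ ℂ ℂ) (c : ℂ) (x : X → ℂ) :
    dc d (c • x) = c • dc d x + d c • x := by
  ext i
  simp only [dc, Pi.smul_apply, smul_eq_mul, Derivation.leibniz, Pi.add_apply]
  ring

theorem dc_zero {X : Type} (d : Derivation ℚ ℂ ℂ) : dc d (0 : X → ℂ) = 0 := by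
  ext i; simp [dc]

theorem dc_sum {X ι : Type} (d : Derivation ℚ ℂ ℂ) (s : Finset ι) (x : ι → X → ℂ) :
    dc d (∑ i ∈ s, x i) = ∑ i ∈ s, dc d (x i) := by
  ext j
  simp [dc, Finset.sum_apply]

theorem dc_mulmap (u : J → P → ℂ) (g : J → ℂ) (l : P → ℂ) (d : Derivation ℚ ℂ ℂ)
    (hu : ∀ j p, d (u j p) = 0) :
    dc d (mulmap u g l) = mulmap u g (dc d l) + mulmap u (dc d g) l := by
  ext j
  have h1 : d (ev u l j) = ev u (dc d l) j := by
    simp only [ev, map_sum, Derivation.leibniz, smul_eq_mul, hu, mul_zero, zero_add, dc]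
    exact Finset.sum_congr rfl fun p _ => mul_comm _ _
  simp only [dc, mulmap_apply, Derivation.leibniz, smul_eq_mul, Pi.add_apply, h1]
  ring_nf

/-- The part of `H` whose coordinatewise derivative stays in `H`. -/
def stab {X : Type} (H : Submodule ℂ (X → ℂ)) (d : Derivation ℚ ℂ ℂ) : Submodule ℂ (X → ℂ) where
  carrier := {x | x ∈ H ∧ dc d x ∈ H}
  add_mem' := by
    rintro a b ⟨ha, ha'⟩ ⟨hb, hb'⟩
    refine ⟨H.add_mem ha hb, ?_⟩
    rw [dc_add]
    exact H.add_mem ha' hb'
  zero_mem' := ⟨H.zero_mem, by rw [dc_zero]; exact H.zero_mem⟩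
  smul_mem' := by
    rintro c a ⟨ha, ha'⟩
    refine ⟨H.smul_mem c ha, ?_⟩
    rw [dc_smul]
    exact H.add_mem (H.smul_mem _ ha') (H.smul_mem _ ha)

/-- `H` is stable under `d`. -/
def Stable {X : Type} (H : Submodule ℂ (X → ℂ)) (d : Derivation ℚ ℂ ℂ) : Prop :=
  ∀ x ∈ H, dc d x ∈ H

theorem stable_iff_le_stab {X : Type} (H : Submodule ℂ (X → ℂ)) (d : Derivation ℚ ℂ ℂ) :
    Stable H d ↔ H ≤ stab H d :=
  ⟨fun h x hx => ⟨hx, h x hx⟩, fun h x hx => (h hx).2⟩

theorem stable_perp {X : Type} [Fintype X] {H : Submodule ℂ (X → ℂ)} {d : Derivation ℚ ℂ ℂ}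
    (h : Stable H d) : Stable (perp H) d := by
  intro f hf η hη
  have h1 := hf η hη
  have h2 := hf _ (h η hη)
  have h3 : d (∑ x, f x * η x) = 0 := by rw [h1, map_zero]
  simp only [map_sum, Derivation.leibniz, smul_eq_mul, Finset.sum_add_distrib] at h3
  have h4 : ∑ x, f x * d (η x) = 0 := h2
  rw [h4, zero_add] at h3
  rw [← h3]
  exact Finset.sum_congr rfl fun x _ => mul_comm _ _

theorem stable_ev_ker (u : J → P → ℂ) (S0 : Finset J) (d : Derivation ℚ ℂ ℂ)
    (hu : ∀ j p, d (u j p) = 0) :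
    Stable (perp (Submodule.span ℂ (u '' (S0 : Set J)))) d := by
  apply stable_perp
  rw [stable_iff_le_stab, Submodule.span_le]
  rintro _ ⟨j, hj, rfl⟩
  refine ⟨Submodule.subset_span ⟨j, hj, rfl⟩, ?_⟩
  have : dc d (u j) = 0 := by
    ext p; exact hu j p
  rw [this]
  exact Submodule.zero_mem _

theorem mem_perp_span {S0 : Set J} {u : J → P → ℂ} {l : P → ℂ} :
    l ∈ perp (Submodule.span ℂ (u '' S0)) ↔ ∀ j ∈ S0, ev u l j = 0 := by
  constructor
  · intro h j hj
    exact h _ (Submodule.subset_span ⟨j, hj, rfl⟩)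
  · intro h w hw
    induction hw using Submodule.span_induction with
    | mem x hx =>
      obtain ⟨j, hj, rfl⟩ := hx
      exact h j hj
    | zero => simp
    | add x y _ _ hx hy =>
      simp only [Pi.add_apply, mul_add, Finset.sum_add_distrib, hx, hy, add_zero]
    | smul c x _ hx =>
      have : ∑ p, l p * (c • x) p = c * ∑ p, l p * x p := by
        rw [Finset.mul_sum]
        exact Finset.sum_congr rfl fun p _ => by simp; ring
      rw [this, hx, mul_zero]

end

/-- Subadditivity of the dimension of a preimage. -/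
theorem finrank_comap_sup {V W : Type} [AddCommGroup V] [Module ℂ V] [FiniteDimensional ℂ V]
    [AddCommGroup W] [Module ℂ W] [FiniteDimensional ℂ W] (S : V →ₗ[ℂ] W)
    (M R : Submodule ℂ W) :
    finrank ℂ ((M ⊔ R).comap S) ≤ finrank ℂ (M.comap S) + finrank ℂ R := by
  let F : (M ⊔ R).comap S →ₗ[ℂ] (R.map M.mkQ) :=
    ((M.mkQ.comp S).comp ((M ⊔ R).comap S).subtype).codRestrict (R.map M.mkQ) (by
      rintro ⟨x, hx⟩
      rw [Submodule.mem_comap] at hx
      obtain ⟨m, hm, r, hr, hmr⟩ := Submodule.mem_sup.1 hx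
      refine ⟨r, hr, ?_⟩
      change M.mkQ r = M.mkQ (S x)
      rw [← hmr, map_add]
      have : M.mkQ m = 0 := (Submodule.Quotient.mk_eq_zero M).2 hm
      rw [this, zero_add])
  have h1 := finrank_le_ker_add F
  have h2 : finrank ℂ (R.map M.mkQ) ≤ finrank ℂ R := Submodule.finrank_map_le _ _
  let G : LinearMap.ker F →ₗ[ℂ] M.comap S :=
    (((M ⊔ R).comap S).subtype.comp (LinearMap.ker F).subtype).codRestrict (M.comap S) (by
      rintro ⟨x, hx⟩
      have h3 : M.mkQ (S x) = 0 := congrArg Subtype.val (LinearMap.mem_ker.1 hx)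
      exact (Submodule.Quotient.mk_eq_zero M).1 h3)
  have h3 : Function.Injective G := by
    rintro ⟨⟨x, hx⟩, hx'⟩ ⟨⟨y, hy⟩, hy'⟩ h
    have : x = y := congrArg Subtype.val h
    subst this
    rfl
  have h4 := LinearMap.finrank_le_finrank_of_injective h3
  omega

/-- Matrices whose columns lie in `R`. -/
def colsIn {P : Type} (R : Submodule ℂ (P → ℂ)) : Submodule ℂ (P → P → ℂ) where
  carrier := {T | ∀ p', (fun p => T p p') ∈ R}
  add_mem' := fun ha hb p' => R.add_mem (ha p') (hb p')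
  zero_mem' := fun _ => R.zero_mem
  smul_mem' := fun c _ ha p' => R.smul_mem c (ha p')

theorem finrank_colsIn {P : Type} [Fintype P] (R : Submodule ℂ (P → ℂ)) :
    finrank ℂ (colsIn R) ≤ Fintype.card P * finrank ℂ R := by
  let F : colsIn R →ₗ[ℂ] (P → R) :=
    { toFun := fun T p' => ⟨fun p => T.1 p p', T.2 p'⟩
      map_add' := fun _ _ => rfl
      map_smul' := fun _ _ => rfl }
  have h1 : Function.Injective F := by
    intro a b h
    apply Subtype.ext
    ext p p'
    have := congrArg Subtype.val (congrFun h p')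
    exact congrFun this p
  have h2 := LinearMap.finrank_le_finrank_of_injective h1
  have h3 : finrank ℂ (P → R) = Fintype.card P * finrank ℂ R := by
    rw [Module.finrank_pi_fintype]; simp
  omega

end Pool.Agent.H92.WR
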