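import Pool.Agent.H92.WR.CoreA

set_option autoImplicit false

/-!
The derivative of a vector `g` with few new multiples lies in a small space.
-/

namespace Pool.Agent.H92.WR

open Module

variable {J P : Type} [Fintype J] [Fintype P] [DecidableEq J] [DecidableEq P]

theorem small_derivative_space (u : J → P → ℂ) (S0 : Finset J) (θ D0 : ℕ)
    (hrich : ∀ T : Finset J,
      T.card + θ * finrank ℂ (Submodule.span ℂ (u '' (S0 : Set J))) ≤
        S0.card + θ * finrank ℂ (Submodule.span ℂ (u '' (T : Set J))))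
    (H : Submodule ℂ (J → ℂ)) (g : J → ℂ)
    (hH : finrank ℂ (H ⊔ (perp (Submodule.span ℂ (u '' (S0 : Set J)))).map (mulmap u g) :
      Submodule ℂ (J → ℂ)) ≤ finrank ℂ H + D0) :
    ∃ G : Submodule ℂ (J → ℂ), finrank ℂ G ≤ finrank ℂ H + D0 + θ * D0 ∧
      ∀ d : Derivation ℚ ℂ ℂ, (∀ j p, d (u j p) = 0) → Stable H d →
        (fun j => if j ∈ S0 then 0 else d (g j)) ∈ G := by
  classical
  set Λ : Submodule ℂ (P → ℂ) := perp (Submodule.span ℂ (u '' (S0 : Set J))) with hΛ
  obtain ⟨σ, μ, hμΛ, hμσ, hsep⟩ := exists_coord_basis Λ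
  set a : P → (J → ℂ) := fun x => mulmap u g (μ x) with ha
  have haΛ : ∀ τ ⊆ σ, (H ⊔ Submodule.span ℂ (a '' (τ : Set P)) : Submodule ℂ (J → ℂ)) ≤
      H ⊔ Λ.map (mulmap u g) := by
    intro τ hτ
    refine sup_le_sup_left (Submodule.span_le.2 ?_) _
    rintro _ ⟨x, hx, rfl⟩
    exact ⟨μ x, hμΛ x (hτ hx), rfl⟩
  have hfin : ∀ τ ⊆ σ, finrank ℂ (H ⊔ Submodule.span ℂ (a '' (τ : Set P)) : Submodule ℂ (J → ℂ)) ≤
      finrank ℂ H + D0 := fun τ hτ => (Submodule.finrank_mono (haΛ τ hτ)).trans hH
  obtain ⟨τ, hτσ, hτcard, hτ⟩ := exists_small_span H σ a D0 hfin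
  have hex : ∀ x ∈ σ, ∃ c : P → ℂ, a x - ∑ y ∈ τ, c y • a y ∈ H := by
    intro x hx
    obtain ⟨η, hη, s, hs, hsum⟩ := Submodule.mem_sup.1 (hτ x hx)
    obtain ⟨c, hc⟩ := (Submodule.mem_span_image_finset_iff_exists_fun' ℂ).1 hs
    refine ⟨c, ?_⟩
    rw [hc, ← hsum, add_sub_cancel_right]
    exact hη
  choose! c hc using hex
  set lam : P → (P → ℂ) := fun x => μ x - ∑ y ∈ τ, c x y • μ y with hlam
  have hlamΛ : ∀ x ∈ σ, lam x ∈ Λ := by
    intro x hx
    refine Λ.sub_mem (hμΛ x hx) (Λ.sum_mem fun y hy => Λ.smul_mem _ (hμΛ y (hτσ hy)))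
  have hlamH : ∀ x ∈ σ, mulmap u g (lam x) ∈ H := by
    intro x hx
    have h1 := hc x hx
    simp only [hlam, map_sub, map_sum, map_smul]
    exact h1
  set V : Submodule ℂ (P → ℂ) := Submodule.span ℂ (lam '' (σ : Set P)) with hV
  have hVΛ : V ≤ Λ := by
    rw [hV, Submodule.span_le]
    rintro _ ⟨x, hx, rfl⟩
    exact hlamΛ x hx
  set H' : Submodule ℂ (J → ℂ) := H ⊔ Submodule.span ℂ (a '' (τ : Set P)) with hH'
  have hH'fin : finrank ℂ H' ≤ finrank ℂ H + D0 := hfin τ hτσ
  -- dimension of `V`
  have hΛV : finrank ℂ Λ ≤ finrank ℂ V + D0 := by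
    have h1 : Λ ≤ V ⊔ Submodule.span ℂ (μ '' (τ : Set P)) := by
      intro l hl
      have h2 : l = ∑ x ∈ σ, l x • μ x := by
        rw [← sub_eq_zero]
        apply hsep
        · exact Λ.sub_mem hl (Λ.sum_mem fun x hx => Λ.smul_mem _ (hμΛ x hx))
        · intro y hy
          simp only [Pi.sub_apply, Finset.sum_apply, Pi.smul_apply, smul_eq_mul]
          rw [Finset.sum_eq_single y]
          · rw [hμσ y hy y hy, if_pos rfl, mul_one, sub_self]
          · intro b hb hby
            rw [hμσ b hb y hy, if_neg hby, mul_zero]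
          · intro h; exact absurd hy h
      rw [h2]
      refine Submodule.sum_mem _ fun x hx => Submodule.smul_mem _ _ ?_
      have h3 : μ x = lam x + ∑ y ∈ τ, c x y • μ y := by
        simp only [hlam]; abel
      rw [h3]
      refine Submodule.add_mem _ (Submodule.mem_sup_left (Submodule.subset_span ⟨x, hx, rfl⟩))
        (Submodule.mem_sup_right (Submodule.sum_mem _ fun y hy => Submodule.smul_mem _ _
          (Submodule.subset_span ⟨y, hy, rfl⟩)))
    have h4 := Submodule.finrank_mono h1
    have h5 : finrank ℂ (V ⊔ Submodule.span ℂ (μ '' (τ : Set P)) : Submodule ℂ (P → ℂ)) ≤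
        finrank ℂ V + finrank ℂ (Submodule.span ℂ (μ '' (τ : Set P))) :=
      Submodule.finrank_add_le_finrank_add_finrank _ _
    have h6 : finrank ℂ (Submodule.span ℂ (μ '' (τ : Set P))) ≤ τ.card := by
      have h7 := finrank_span_finset_le_card (R := ℂ) (τ.image μ)
      rw [Set.finrank, Finset.coe_image] at h7
      exact h7.trans Finset.card_image_le
    omega
  -- the zero set of `V`
  set Z : Finset J := Finset.univ.filter (fun j => j ∉ S0 ∧ ∀ l ∈ V, ev u l j = 0) with hZ
  have hZcard : Z.card ≤ θ * D0 := by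
    have hdisj : Disjoint S0 Z := by
      rw [Finset.disjoint_left]
      intro j hj hj'
      rw [hZ, Finset.mem_filter] at hj'
      exact hj'.2.1 hj
    have h1 : V ≤ perp (Submodule.span ℂ (u '' ((S0 ∪ Z : Finset J) : Set J))) := by
      intro l hl
      rw [mem_perp_span]
      intro j hj
      rw [Finset.coe_union] at hj
      rcases hj with hj | hj
      · exact mem_perp_span.1 (hVΛ hl) j hj
      · have hj' : j ∈ Z := hj
        rw [hZ, Finset.mem_filter] at hj'
        exact hj'.2.2 l hl
    have h2 := Submodule.finrank_mono h1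
    have h3 := finrank_perp (Submodule.span ℂ (u '' ((S0 ∪ Z : Finset J) : Set J)))
    have h4 := finrank_perp (Submodule.span ℂ (u '' (S0 : Set J)))
    have h5 := hrich (S0 ∪ Z)
    rw [Finset.card_union_of_disjoint hdisj] at h5
    have h6 : finrank ℂ (Submodule.span ℂ (u '' ((S0 ∪ Z : Finset J) : Set J))) ≤
        finrank ℂ (Submodule.span ℂ (u '' (S0 : Set J))) + D0 := by
      rw [← hΛ] at h4
      omega
    have h7 := Nat.mul_le_mul_left θ h6
    rw [Nat.mul_add] at h7
    omega
  -- the space
  let G : Submodule ℂ (J → ℂ) :=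
    { carrier := {γ | (∀ j ∈ S0, γ j = 0) ∧ ∀ l ∈ V, mulmap u γ l ∈ H'}
      add_mem' := by
        rintro x y ⟨hx, hx'⟩ ⟨hy, hy'⟩
        refine ⟨fun j hj => by simp [hx j hj, hy j hj], fun l hl => ?_⟩
        have : mulmap u (x + y) l = mulmap u x l + mulmap u y l := by
          ext j; simp [mulmap_apply, mul_add]
        rw [this]
        exact H'.add_mem (hx' l hl) (hy' l hl)
      zero_mem' := by
        refine ⟨fun j _ => rfl, fun l _ => ?_⟩
        have : mulmap u (0 : J → ℂ) l = 0 := by
          ext j; simp [mulmap_apply]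
        rw [this]
        exact H'.zero_mem
      smul_mem' := by
        rintro t x ⟨hx, hx'⟩
        refine ⟨fun j hj => by simp [hx j hj], fun l hl => ?_⟩
        have : mulmap u (t • x) l = t • mulmap u x l := by
          ext j; simp [mulmap_apply]; ring
        rw [this]
        exact H'.smul_mem _ (hx' l hl) }
  refine ⟨G, ?_, ?_⟩
  · -- dimension bound
    have hgen : ∃ l ∈ V, ∀ i : {j : J // j ∉ S0 ∧ j ∉ Z}, ev u l i.1 ≠ 0 := by
      have := Module.Dual.exists_forall_mem_ne_zero_of_forall_exists V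
        (fun i : {j : J // j ∉ S0 ∧ j ∉ Z} =>
          ({ toFun := fun l => ev u l i.1
             map_add' := by
              intro x y
              simp only [ev, Pi.add_apply, add_mul, Finset.sum_add_distrib]
             map_smul' := by
              intro t x
              simp only [ev, Pi.smul_apply, smul_eq_mul, RingHom.id_apply, mul_assoc,
                Finset.mul_sum] } : Module.Dual ℂ (P → ℂ))) (by
          rintro ⟨j, hj1, hj2⟩
          by_contra hcon
          push Not at hcon
          apply hj2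
          rw [hZ, Finset.mem_filter]
          exact ⟨Finset.mem_univ _, hj1, hcon⟩)
      exact this
    obtain ⟨l, hl, hne⟩ := hgen
    let F : G →ₗ[ℂ] (H' × (Z → ℂ)) :=
      { toFun := fun γ => (⟨mulmap u γ.1 l, γ.2.2 l hl⟩, fun j => γ.1 j)
        map_add' := by
          intro x y
          refine Prod.ext (Subtype.ext ?_) rfl
          ext j; simp [mulmap_apply, mul_add]
        map_smul' := by
          intro t x
          refine Prod.ext (Subtype.ext ?_) rfl
          ext j; simp [mulmap_apply]; ring }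
    have hF : Function.Injective F := by
      rw [← LinearMap.ker_eq_bot, LinearMap.ker_eq_bot']
      rintro ⟨γ, hγ⟩ h0
      apply Subtype.ext
      ext j
      change γ j = 0
      by_cases hj : j ∈ S0
      · exact hγ.1 j hj
      · by_cases hjZ : j ∈ Z
        · exact congrFun (congrArg Prod.snd h0) ⟨j, hjZ⟩
        · have h1 : mulmap u γ l = 0 := congrArg Subtype.val (congrArg Prod.fst h0)
          have h2 := congrFun h1 j
          rw [mulmap_apply] at h2
          exact (mul_eq_zero.1 h2).resolve_left (hne ⟨j, hj, hjZ⟩)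
    have h1 := LinearMap.finrank_le_finrank_of_injective hF
    rw [Module.finrank_prod, Module.finrank_fintype_fun_eq_card, Fintype.card_coe] at h1
    omega
  · -- membership
    intro d hu hst
    have hΛst : Stable Λ d := stable_ev_ker u S0 d hu
    have hμd : ∀ x ∈ σ, dc d (μ x) = 0 := by
      intro x hx
      apply hsep _ (hΛst _ (hμΛ x hx))
      intro y hy
      change d (μ x y) = 0
      rw [hμσ x hx y hy]
      split_ifs
      · exact Derivation.map_one_eq_zero d
      · exact map_zero d
    have hlamd : ∀ x ∈ σ, dc d (lam x) = - ∑ y ∈ τ, d (c x y) • μ y := by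
      intro x hx
      simp only [hlam, dc_sub, dc_sum, hμd x hx, dc_smul]
      rw [zero_sub]
      congr 1
      refine Finset.sum_congr rfl fun y hy => ?_
      rw [hμd y (hτσ hy), smul_zero, zero_add]
    have hkey : ∀ x ∈ σ, mulmap u (dc d g) (lam x) ∈ H' := by
      intro x hx
      have h1 := hst _ (hlamH x hx)
      rw [dc_mulmap u g (lam x) d hu, hlamd x hx] at h1
      have h2 : mulmap u g (-∑ y ∈ τ, d (c x y) • μ y) ∈ H' := by
        rw [map_neg, map_sum]
        refine H'.neg_mem (H'.sum_mem fun y hy => ?_)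
        rw [map_smul]
        exact H'.smul_mem _ (Submodule.mem_sup_right (Submodule.subset_span ⟨y, hy, rfl⟩))
      have h3 : mulmap u (dc d g) (lam x) =
          (mulmap u g (-∑ y ∈ τ, d (c x y) • μ y) + mulmap u (dc d g) (lam x)) -
            mulmap u g (-∑ y ∈ τ, d (c x y) • μ y) := by abel
      rw [h3]
      exact H'.sub_mem (Submodule.mem_sup_left h1) h2
    refine ⟨fun j hj => by simp [hj], ?_⟩
    intro l hl
    have h4 : mulmap u (fun j => if j ∈ S0 then 0 else d (g j)) l = mulmap u (dc d g) l := by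
      ext j
      rw [mulmap_apply, mulmap_apply]
      by_cases hj : j ∈ S0
      · rw [mem_perp_span.1 (hVΛ hl) j hj, zero_mul, zero_mul]
      · simp [hj, dc]
    rw [h4]
    have h5 : V ≤ H'.comap (mulmap u (dc d g)) := by
      rw [hV, Submodule.span_le]
      rintro _ ⟨x, hx, rfl⟩
      exact hkey x hx
    exact h5 hl

end Pool.Agent.H92.WR
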