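import Pool.Agent.H92.WR.CoreB

set_option autoImplicit false

/-!
The core inequality.
-/

namespace Pool.Agent.H92.WR

open Module

variable {J P K Q : Type} [Fintype J] [Fintype P] [Fintype K] [Fintype Q]
  [DecidableEq J] [DecidableEq P] [DecidableEq K]

/-- Evaluate a linear family of derivations at a family of numbers. -/
noncomputable def evD (D : (K → Q → ℂ) →ₗ[ℂ] Derivation ℚ ℂ ℂ) {X : Type} (x : X → ℂ) :
    (K → Q → ℂ) →ₗ[ℂ] (X → ℂ) where
  toFun δ i := D δ (x i)
  map_add' := by intros; ext; simp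
  map_smul' := by intros; ext; simp

theorem core
    (D : (K → Q → ℂ) →ₗ[ℂ] Derivation ℚ ℂ ℂ)
    (S : (Q → ℂ) →ₗ[ℂ] (P → P → ℂ))
    (hS : ∀ (d : Derivation ℚ ℂ ℂ) (z : Q → ℂ), (fun p p' => d (S z p p')) = S (dc d z))
    (M : Submodule ℂ (P → P → ℂ))
    (hM : ∀ δ, ∀ T ∈ M, (fun p p' => D δ (T p p')) ∈ M)
    (e : ℕ) (he : finrank ℂ (M.comap S) ≤ e)
    (Z : K → Q → ℂ) (hZ : ∀ δ κ q, D δ (Z κ q) = δ κ q)
    (u v w : J → P → ℂ) (f g : K → J → ℂ)
    (h1 : ∀ κ, (fun p p' => ∑ j, f κ j * u j p * v j p') - S (Z κ) ∈ M)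
    (h2 : ∀ κ, (fun p p' => ∑ j, g κ j * u j p * w j p') - S (Z κ) ∈ M)
    (h3 : ∀ κ κ' p, ∑ j, u j p * g κ j * f κ' j = 0)
    (D0 θ : ℕ) :
    ∃ r i : ℕ, θ * r ≤ Fintype.card J ∧ D0 * i ≤ Fintype.card J ∧
      2 * (Fintype.card K * Fintype.card Q) ≤
        6 * (Fintype.card J * Fintype.card P) + 2 * (i * Fintype.card J) +
        Fintype.card K * Fintype.card J + Fintype.card K * (D0 + θ * D0) +
        2 * (Fintype.card K * e) + Fintype.card K * (Fintype.card P * r) := by
  classical
  obtain ⟨S0, hS0, hrich⟩ := exists_rich_set (W := P → ℂ) u θ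
  set R : Submodule ℂ (P → ℂ) := Submodule.span ℂ (u '' (S0 : Set J)) with hR
  set Λ : Submodule ℂ (P → ℂ) := perp R with hΛ
  obtain ⟨I, hI, hIst⟩ := exists_stable_sup (fun κ => Λ.map (mulmap u (g κ))) D0
  set H : Submodule ℂ (J → ℂ) := ⨆ i ∈ I, Λ.map (mulmap u (g i)) with hH
  have hHfin : finrank ℂ H ≤ Fintype.card J := by
    have := Submodule.finrank_le H
    rwa [Module.finrank_fintype_fun_eq_card] at this
  refine ⟨finrank ℂ R, I.card, ?_, ?_, ?_⟩
  · exact hS0.trans (Finset.card_le_univ _)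
  · exact hI.trans hHfin
  -- the space of admissible directions
  let X0 := ((J × P) ⊕ (J × P)) ⊕ ((J × P) ⊕ (I × J))
  let x0 : X0 → ℂ := Sum.elim
    (Sum.elim (fun a => u a.1 a.2) (fun a => v a.1 a.2))
    (Sum.elim (fun a => w a.1 a.2) (fun a => g a.1 a.2))
  set Δ : Submodule ℂ (K → Q → ℂ) := LinearMap.ker (evD D x0) with hΔ
  have hΔu : ∀ δ ∈ Δ, ∀ j p, D δ (u j p) = 0 := by
    intro δ hδ j p
    exact congrFun (LinearMap.mem_ker.1 hδ) (Sum.inl (Sum.inl (j, p)))
  have hΔv : ∀ δ ∈ Δ, ∀ j p, D δ (v j p) = 0 := by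
    intro δ hδ j p
    exact congrFun (LinearMap.mem_ker.1 hδ) (Sum.inl (Sum.inr (j, p)))
  have hΔw : ∀ δ ∈ Δ, ∀ j p, D δ (w j p) = 0 := by
    intro δ hδ j p
    exact congrFun (LinearMap.mem_ker.1 hδ) (Sum.inr (Sum.inl (j, p)))
  have hΔg : ∀ δ ∈ Δ, ∀ i ∈ I, ∀ j, D δ (g i j) = 0 := by
    intro δ hδ i hi j
    exact congrFun (LinearMap.mem_ker.1 hδ) (Sum.inr (Sum.inr (⟨i, hi⟩, j)))
  have hΔfin : Fintype.card K * Fintype.card Q ≤
      finrank ℂ Δ + (3 * (Fintype.card J * Fintype.card P) + I.card * Fintype.card J) := by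
    have h4 := finrank_le_ker_add (evD D x0)
    rw [Module.finrank_fintype_fun_eq_card] at h4
    have h5 : finrank ℂ (K → Q → ℂ) = Fintype.card K * Fintype.card Q := by
      rw [Module.finrank_pi_fintype]
      simp
    have h6 : Fintype.card X0 =
        3 * (Fintype.card J * Fintype.card P) + I.card * Fintype.card J := by
      simp only [X0, Fintype.card_sum, Fintype.card_prod, Fintype.card_coe]
      ring
    rw [h5, h6] at h4
    exact h4
  -- stability
  have hΛst : ∀ δ ∈ Δ, Stable Λ (D δ) := fun δ hδ => stable_ev_ker u S0 (D δ) (hΔu δ hδ)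
  have hHst : ∀ δ ∈ Δ, Stable H (D δ) := by
    intro δ hδ
    rw [stable_iff_le_stab]
    conv_lhs => rw [hH]
    refine iSup₂_le fun i hi => ?_
    rintro _ ⟨l, hl, rfl⟩
    refine ⟨?_, ?_⟩
    · have : Λ.map (mulmap u (g i)) ≤ H := le_iSup₂_of_le i hi le_rfl
      exact this ⟨l, hl, rfl⟩
    · rw [dc_mulmap u (g i) l (D δ) (hΔu δ hδ)]
      have h4 : mulmap u (dc (D δ) (g i)) l = 0 := by
        ext j
        rw [mulmap_apply]
        have : dc (D δ) (g i) j = 0 := hΔg δ hδ i hi j
        rw [this, mul_zero]; rfl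
      rw [h4, add_zero]
      have : Λ.map (mulmap u (g i)) ≤ H := le_iSup₂_of_le i hi le_rfl
      exact this ⟨_, hΛst δ hδ l hl, rfl⟩
  have hfperp : ∀ κ, f κ ∈ perp H := by
    intro κ
    have h4 : H ≤ perp (Submodule.span ℂ {f κ}) := by
      rw [hH]
      refine iSup₂_le fun i _ => ?_
      rintro _ ⟨l, _, rfl⟩ y hy
      obtain ⟨t, rfl⟩ := Submodule.mem_span_singleton.1 hy
      have h5 : ∑ j, mulmap u (g i) l j * f κ j = 0 := by
        calc ∑ j, mulmap u (g i) l j * f κ j
            = ∑ j, ∑ p, l p * (u j p * g i j * f κ j) := by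
              refine Finset.sum_congr rfl fun j _ => ?_
              rw [mulmap_apply, ev, Finset.sum_mul, Finset.sum_mul]
              exact Finset.sum_congr rfl fun p _ => by ring
          _ = ∑ p, l p * ∑ j, u j p * g i j * f κ j := by
              rw [Finset.sum_comm]
              exact Finset.sum_congr rfl fun p _ => by rw [Finset.mul_sum]
          _ = 0 := by simp [h3]
      have h6 : ∑ j, mulmap u (g i) l j * (t • f κ) j = t * ∑ j, mulmap u (g i) l j * f κ j := by
        rw [Finset.mul_sum]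
        exact Finset.sum_congr rfl fun j _ => by simp; ring
      rw [h6, h5, mul_zero]
    intro η hη
    have h7 := h4 hη (f κ) (Submodule.mem_span_singleton_self _)
    rw [← h7]
    exact Finset.sum_congr rfl fun j _ => mul_comm _ _
  -- part (A)
  have hA := finrank_le_of_maps Δ (fun κ => evD D (f κ)) (fun _ => perp H)
    (fun δ hδ κ => stable_perp (hHst δ hδ) _ (hfperp κ))
    (fun κ => (LinearMap.proj κ : (K → Q → ℂ) →ₗ[ℂ] (Q → ℂ))) (M.comap S)
    (by
      intro δ hδ h0 κ
      have h4 := hM δ _ (h1 κ)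
      have h5 : (fun p p' => D δ (((fun p p' => ∑ j, f κ j * u j p * v j p') - S (Z κ)) p p')) =
          - S (δ κ) := by
        have h6 := hS (D δ) (Z κ)
        have h7 : dc (D δ) (Z κ) = δ κ := by
          ext q; exact hZ δ κ q
        rw [h7] at h6
        rw [← h6]
        ext p p'
        have h8 : D δ (∑ j, f κ j * u j p * v j p') = 0 := by
          rw [map_sum]
          refine Finset.sum_eq_zero fun j _ => ?_
          have h9 : D δ (f κ j) = 0 := congrFun (h0 κ) j
          simp only [Derivation.leibniz, smul_eq_mul, hΔu δ hδ, hΔv δ hδ, h9, mul_zero, add_zero]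
        simp only [Pi.sub_apply, Pi.neg_apply, map_sub, h8, zero_sub]
      rw [h5] at h4
      have h10 := M.neg_mem h4
      rw [neg_neg] at h10
      exact h10)
    (fun δ h => funext h) (Fintype.card J - finrank ℂ H) e
    (fun κ => by
      have := finrank_perp H
      omega) he
  -- part (B)
  have hBex : ∀ κ, ∃ G : Submodule ℂ (J → ℂ), finrank ℂ G ≤ finrank ℂ H + D0 + θ * D0 ∧
      ∀ d : Derivation ℚ ℂ ℂ, (∀ j p, d (u j p) = 0) → Stable H d →
        (fun j => if j ∈ S0 then 0 else d (g κ j)) ∈ G := fun κ =>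
    small_derivative_space u S0 θ D0 hrich H (g κ) (hIst κ)
  choose G hG hG' using hBex
  have hNR : finrank ℂ ((M ⊔ colsIn R).comap S) ≤ e + Fintype.card P * finrank ℂ R := by
    have h4 := finrank_comap_sup S M (colsIn R)
    have h5 := finrank_colsIn R
    omega
  let B : K → (K → Q → ℂ) →ₗ[ℂ] (J → ℂ) := fun κ =>
    { toFun := fun δ j => if j ∈ S0 then 0 else D δ (g κ j)
      map_add' := by
        intro x y
        ext j
        by_cases hj : j ∈ S0
        · simp [hj]
        · simp [hj]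
      map_smul' := by
        intro t x
        ext j
        by_cases hj : j ∈ S0
        · simp [hj]
        · simp [hj] }
  have hB := finrank_le_of_maps Δ B G
    (fun δ hδ κ => hG' κ (D δ) (hΔu δ hδ) (hHst δ hδ))
    (fun κ => (LinearMap.proj κ : (K → Q → ℂ) →ₗ[ℂ] (Q → ℂ))) ((M ⊔ colsIn R).comap S)
    (by
      intro δ hδ h0 κ
      have h4 := hM δ _ (h2 κ)
      have h5 : (fun p p' => D δ (((fun p p' => ∑ j, g κ j * u j p * w j p') - S (Z κ)) p p')) =
          (fun p p' => ∑ j ∈ S0, D δ (g κ j) * u j p * w j p') - S (δ κ) := by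
        have h6 := hS (D δ) (Z κ)
        have h7 : dc (D δ) (Z κ) = δ κ := by
          ext q; exact hZ δ κ q
        rw [h7] at h6
        rw [← h6]
        ext p p'
        have h8 : D δ (∑ j, g κ j * u j p * w j p') = ∑ j ∈ S0, D δ (g κ j) * u j p * w j p' := by
          rw [map_sum]
          rw [← Finset.sum_subset (Finset.subset_univ S0)]
          · refine Finset.sum_congr rfl fun j _ => ?_
            simp only [Derivation.leibniz, smul_eq_mul, hΔu δ hδ, hΔw δ hδ, mul_zero, zero_add]
            ring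
          · intro j _ hj
            have h9 : D δ (g κ j) = 0 := by
              have := congrFun (h0 κ) j
              simpa [B, hj] using this
            simp only [Derivation.leibniz, smul_eq_mul, hΔu δ hδ, hΔw δ hδ, h9, mul_zero, add_zero]
        simp only [Pi.sub_apply, map_sub, h8]
      rw [h5] at h4
      have h10 : (fun p p' => ∑ j ∈ S0, D δ (g κ j) * u j p * w j p') ∈ colsIn R := by
        intro p'
        have h11 : (fun p => ∑ j ∈ S0, D δ (g κ j) * u j p * w j p') =
            ∑ j ∈ S0, (D δ (g κ j) * w j p') • u j := by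
          ext p
          rw [Finset.sum_apply]
          exact Finset.sum_congr rfl fun j _ => by simp; ring
        change (fun p => ∑ j ∈ S0, D δ (g κ j) * u j p * w j p') ∈ R
        rw [h11]
        exact R.sum_mem fun j hj => R.smul_mem _ (Submodule.subset_span ⟨j, hj, rfl⟩)
      have h12 : S (δ κ) = (fun p p' => ∑ j ∈ S0, D δ (g κ j) * u j p * w j p') -
          ((fun p p' => ∑ j ∈ S0, D δ (g κ j) * u j p * w j p') - S (δ κ)) := by abel
      change S (δ κ) ∈ M ⊔ colsIn R
      rw [h12]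
      exact Submodule.sub_mem _ (Submodule.mem_sup_right h10) (Submodule.mem_sup_left h4))
    (fun δ h => funext h) (finrank ℂ H + D0 + θ * D0) (e + Fintype.card P * finrank ℂ R)
    hG hNR
  have hsub : Fintype.card K * (Fintype.card J - finrank ℂ H) + Fintype.card K * finrank ℂ H =
      Fintype.card K * Fintype.card J := by
    rw [← Nat.mul_add, Nat.sub_add_cancel hHfin]
  have e1 : Fintype.card K * (finrank ℂ H + D0 + θ * D0) =
      Fintype.card K * finrank ℂ H + Fintype.card K * (D0 + θ * D0) := by ring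
  have e2 : Fintype.card K * (e + Fintype.card P * finrank ℂ R) =
      Fintype.card K * e + Fintype.card K * (Fintype.card P * finrank ℂ R) := by ring
  rw [e1, e2] at hB
  omega

end Pool.Agent.H92.WR
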