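import Mathlib

set_option autoImplicit false

/-!
Derivations of the complex numbers with prescribed values on a finite
algebraically independent family.
-/

namespace Pool.Agent.H92.WR

open MvPolynomial

theorem exists_derivation_of_transcendenceBasis {ι : Type} (v : ι → ℂ)
    (hv : IsTranscendenceBasis ℚ v) (c : ι → ℂ) :
    ∃ D : Derivation ℚ ℂ ℂ, ∀ i, D (v i) = c i := by
  let _ : Algebra (MvPolynomial ι ℚ) ℂ := (MvPolynomial.aeval v).toAlgebra
  have halg : ∀ p : MvPolynomial ι ℚ, algebraMap (MvPolynomial ι ℚ) ℂ p = aeval v p := fun _ => rfl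
  have _ : IsScalarTower ℚ (MvPolynomial ι ℚ) ℂ := IsScalarTower.of_algebraMap_eq (by
    intro x
    rw [halg, MvPolynomial.algebraMap_eq, aeval_C])
  have hinj : Function.Injective (algebraMap (MvPolynomial ι ℚ) ℂ) := hv.1
  have _ : FaithfulSMul (MvPolynomial ι ℚ) ℂ := (faithfulSMul_iff_algebraMap_injective _ _).2 hinj
  let _ : Algebra (FractionRing (MvPolynomial ι ℚ)) ℂ := FractionRing.liftAlgebra _ _
  have _ : IsScalarTower (MvPolynomial ι ℚ) (FractionRing (MvPolynomial ι ℚ)) ℂ :=
    FractionRing.isScalarTower_liftAlgebra _ _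
  have _ : Algebra.IsAlgebraic (MvPolynomial ι ℚ) ℂ := by
    have h1 := hv.isAlgebraic
    refine ⟨fun x => ?_⟩
    have h2 := h1.isAlgebraic x
    exact h2.ringHom_of_comp_eq hv.1.aevalEquiv.symm (RingHom.id ℂ) hv.1.aevalEquiv.symm.injective
      (by
        ext y
        obtain ⟨p, rfl⟩ := hv.1.aevalEquiv.surjective y
        simp [halg])
  have _ : Algebra.IsAlgebraic (FractionRing (MvPolynomial ι ℚ)) ℂ :=
    (IsFractionRing.comap_isAlgebraic_iff (A := MvPolynomial ι ℚ)
      (K := FractionRing (MvPolynomial ι ℚ)) (C := ℂ)).1 inferInstance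
  have _ : Algebra.FormallyEtale (FractionRing (MvPolynomial ι ℚ)) ℂ :=
    Algebra.FormallyEtale.of_isSeparable _ _
  have _ : Algebra.FormallyEtale (MvPolynomial ι ℚ) (FractionRing (MvPolynomial ι ℚ)) :=
    Algebra.FormallyEtale.of_isLocalization (nonZeroDivisors _)
  have _ : Algebra.FormallyEtale (MvPolynomial ι ℚ) ℂ :=
    Algebra.FormallyEtale.comp (MvPolynomial ι ℚ) (FractionRing (MvPolynomial ι ℚ)) ℂ
  let d : Derivation ℚ (MvPolynomial ι ℚ) ℂ := MvPolynomial.mkDerivation ℚ c
  let L := d.liftKaehlerDifferential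
  let e := KaehlerDifferential.tensorKaehlerEquivOfFormallyEtale ℚ (MvPolynomial ι ℚ) ℂ
  let L' := (L.liftBaseChange ℂ).comp e.symm.toLinearMap
  refine ⟨L'.compDer (KaehlerDifferential.D ℚ ℂ), fun i => ?_⟩
  have h1 : v i = algebraMap (MvPolynomial ι ℚ) ℂ (X i) := by rw [halg, aeval_X]
  rw [h1]
  change (L.liftBaseChange ℂ) (e.symm (KaehlerDifferential.D ℚ ℂ (algebraMap (MvPolynomial ι ℚ) ℂ (X i)))) = _
  rw [KaehlerDifferential.tensorKaehlerEquivOfFormallyEtale_symm_D_algebraMap,
    LinearMap.liftBaseChange_tmul, Derivation.liftKaehlerDifferential_comp_D, one_smul,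
    MvPolynomial.mkDerivation_X]

theorem exists_dual_derivations (ι : Type) [Fintype ι] [DecidableEq ι] :
    ∃ (ξ : ι → ℂ) (D : ι → Derivation ℚ ℂ ℂ), ∀ i j, D i (ξ j) = if i = j then 1 else 0 := by
  obtain ⟨s, hs⟩ := exists_isTranscendenceBasis ℚ ℂ
  have hinf : Infinite s := by
    by_contra hfin
    rw [not_infinite_iff_finite] at hfin
    have h1 := IsAlgClosed.cardinal_le_max_transcendence_basis (R := ℚ) (K := ℂ) _ hs
    simp only [Cardinal.mk_complex, Cardinal.lift_id, Cardinal.mkRat] at h1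
    have h2 : Cardinal.mk s ≤ Cardinal.aleph0 := Cardinal.mk_le_aleph0
    have h3 : Cardinal.continuum ≤ Cardinal.aleph0 := by
      refine h1.trans ?_
      simp [h2]
    exact absurd h3 (not_le.2 Cardinal.aleph0_lt_continuum)
  let f : ι ↪ s := ((Fintype.equivFin ι).toEmbedding.trans Fin.valEmbedding).trans
    (Infinite.natEmbedding s)
  choose D hD using fun i : ι => exists_derivation_of_transcendenceBasis _ hs
    (fun x => if x = f i then 1 else 0)
  refine ⟨fun i => f i, D, fun i j => ?_⟩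
  rw [hD]
  by_cases h : i = j
  · simp [h]
  · rw [if_neg h, if_neg]
    intro h'
    exact h (f.injective h').symm

end Pool.Agent.H92.WR
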