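import Pool.Agent.H92.WR.Upper
import Pool.Agent.H92.WR.Deriv

set_option autoImplicit false

/-!
Putting everything together.
-/

namespace Pool.Agent.H92.WR

open Module

theorem exists_family {n A : ℕ} {ι : Type} [Fintype ι] [DecidableEq ι] (ξ : ι → ℂ)
    (Dd : ι → Derivation ℚ ℂ ℂ) (hD : ∀ i j, Dd i (ξ j) = if i = j then 1 else 0)
    (f g : KK A × QQ n → ι) (hf : Function.Injective f) (hfg : ∀ a b, f a ≠ g b) :
    ∃ D : (KK A → QQ n → ℂ) →ₗ[ℂ] Derivation ℚ ℂ ℂ,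
      (∀ δ κ q, D δ (ξ (f (κ, q))) = δ κ q) ∧ (∀ δ κ q, D δ (ξ (g (κ, q))) = 0) := by
  let D : (KK A → QQ n → ℂ) →ₗ[ℂ] Derivation ℚ ℂ ℂ :=
    { toFun := fun δ => ∑ a : KK A × QQ n, δ a.1 a.2 • Dd (f a)
      map_add' := by
        intro x y
        simp only [Pi.add_apply, add_smul, Finset.sum_add_distrib]
      map_smul' := by
        intro c x
        simp only [Pi.smul_apply, smul_eq_mul, RingHom.id_apply, Finset.smul_sum, mul_smul] }
  have happ : ∀ δ x, D δ x = ∑ a : KK A × QQ n, δ a.1 a.2 * Dd (f a) x := by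
    intro δ x
    have h1 := map_sum (Derivation.coeFnAddMonoidHom (R := ℚ) (A := ℂ) (M := ℂ))
      (fun a : KK A × QQ n => δ a.1 a.2 • Dd (f a)) Finset.univ
    have h2 := congrFun h1 x
    rw [Finset.sum_apply] at h2
    exact h2
  refine ⟨D, ?_, ?_⟩
  · intro δ κ q
    rw [happ, Finset.sum_eq_single (κ, q)]
    · rw [hD, if_pos rfl, mul_one]
    · intro b _ hb
      rw [hD, if_neg (fun h => hb (hf h)), mul_zero]
    · intro h
      exact absurd (Finset.mem_univ _) h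
  · intro δ κ q
    rw [happ]
    refine Finset.sum_eq_zero fun a _ => ?_
    rw [hD, if_neg (hfg _ _), mul_zero]

theorem GG_wr {R : Type} [CommRing R] [Algebra ℂ R] {Lin : Submodule ℂ R} {n A μ : ℕ}
    (Z : KK A → QQ n → ℂ) (l : Fin μ → PP n A → ℂ) (x : SG n A μ → R) (hx : ∀ s, x s ∈ Lin) :
    ∃ r, Wr Lin r (GG Z l x) := by
  refine ⟨_, Wr.add (Wr.sum (r := Fintype.card (QQ n) * 4) Finset.univ _ ?_)
    (Wr.sum (r := 3) Finset.univ _ ?_)⟩
  · intro κ _
    rw [Finset.mul_sum]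
    refine Wr.sum (r := 4) Finset.univ _ ?_
    intro q _
    rw [mul_smul_comm, ← mul_assoc]
    exact (Wr.mul3 (hx _) (hx _) (hx _)).smul _
  · intro m _
    rw [mul_comm]
    exact Wr.sq_mul (Lin.sum_mem fun p _ => Lin.smul_mem _ (hx _)) (hx _)

theorem Wr.toFin {σ : Type} {r : ℕ} {F : MvPolynomial σ ℂ}
    (h : Wr (MvPolynomial.homogeneousSubmodule σ ℂ 1) r F) :
    ∃ L : Fin r → MvPolynomial σ ℂ, (∀ j, (L j).IsHomogeneous 1) ∧ F = ∑ j, L j ^ 3 := by
  obtain ⟨l, rfl, h2, h3⟩ := h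
  refine ⟨fun j => l.get j, fun j => h2 _ (List.get_mem _ _), ?_⟩
  rw [h3]
  conv_lhs => rw [← List.ofFn_get l]
  rw [List.map_ofFn, List.sum_ofFn]
  rfl

theorem Wr.isHomogeneous {σ : Type} {r : ℕ} {F : MvPolynomial σ ℂ}
    (h : Wr (MvPolynomial.homogeneousSubmodule σ ℂ 1) r F) : F.IsHomogeneous 3 := by
  obtain ⟨L, hL, rfl⟩ := h.toFin
  refine MvPolynomial.IsHomogeneous.sum _ _ _ fun j _ => ?_
  have := (hL j).pow 3
  simpa using this

/-- The failure of additivity, given the numerical inequality. -/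
theorem main (n A D0 θ : ℕ) (hn : 0 < n)
    (hnum : ∀ t r i : ℕ, 2 * t ≤ 3 * n ^ 4 + 16 * n ^ 3 + 12 * n ^ 2 → θ * r ≤ t → D0 * i ≤ t →
      2 * (Fintype.card (KK A) * Fintype.card (QQ n)) ≤
        6 * (t * Fintype.card (PP n A)) + 2 * (i * t) +
        Fintype.card (KK A) * t + Fintype.card (KK A) * (D0 + θ * D0) +
        2 * (Fintype.card (KK A) * Fintype.card (KK A)) +
        Fintype.card (KK A) * (Fintype.card (PP n A) * r) → False) :
    ¬ (∀ (s : ℕ) (n : Fin s → ℕ) (d : ℕ), 2 ≤ d →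
  ∀ (F : (i : Fin s) → MvPolynomial (Fin (n i + 1)) ℂ),
    (∀ i, (F i).IsHomogeneous d) →
    sInf {r : ℕ | ∃ L : Fin r → MvPolynomial (Σ i : Fin s, Fin (n i + 1)) ℂ,
        (∀ j, (L j).IsHomogeneous 1) ∧
        ∑ i, MvPolynomial.rename (Sigma.mk (β := fun k => Fin (n k + 1)) i) (F i)
          = ∑ j, (L j) ^ d}
    = ∑ i, sInf {r : ℕ | ∃ L : Fin r → MvPolynomial (Fin (n i + 1)) ℂ,
        (∀ j, (L j).IsHomogeneous 1) ∧ F i = ∑ j, (L j) ^ d}) := by
  classical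
  intro H
  obtain ⟨ξ, Dd, hD⟩ := exists_dual_derivations ((KK A × QQ n) ⊕ (KK A × QQ n))
  set Z : KK A → QQ n → ℂ := fun κ q => ξ (.inl (κ, q)) with hZ
  set W : KK A → QQ n → ℂ := fun κ q => ξ (.inr (κ, q)) with hW
  set Zs : Fin 2 → KK A → QQ n → ℂ := ![Z, fun κ q => W κ (tau q)] with hZs
  set Ws : Fin 2 → KK A → QQ n → ℂ := ![W, fun κ q => Z κ (tau q)] with hWs
  have hfam : ∀ i : Fin 2, ∃ D : (KK A → QQ n → ℂ) →ₗ[ℂ] Derivation ℚ ℂ ℂ,
      (∀ δ κ q, D δ (Zs i κ q) = δ κ q) ∧ (∀ δ κ q, D δ (Ws i κ q) = 0) := by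
    intro i
    fin_cases i
    · exact exists_family ξ Dd hD (fun a => .inl a) (fun a => .inr a) Sum.inl_injective
        (fun a b => by simp)
    · refine exists_family ξ Dd hD (fun a => .inr (a.1, tau a.2)) (fun a => .inl (a.1, tau a.2))
        ?_ (fun a b => by simp)
      intro a b hab
      have h1 : ((a.1, tau a.2) : KK A × QQ n) = (b.1, tau b.2) := Sum.inr_injective hab
      have h2 : a.1 = b.1 := (Prod.mk.injEq _ _ _ _).mp h1 |>.1
      have h3 : tau a.2 = tau b.2 := (Prod.mk.injEq _ _ _ _).mp h1 |>.2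
      have h4 : a.2 = b.2 := by rw [← tau_tau a.2, h3, tau_tau]
      exact Prod.ext h2 h4
  choose μ l hl hsp using fun i : Fin 2 => exists_basis (Ws i)
  -- the number of variables
  have hpos : ∀ i, 0 < Fintype.card (SG n A (μ i)) := fun i =>
    Fintype.card_pos_iff.2 ⟨.inl (.inl (.inl (.inl (⟨0, hn⟩, ⟨0, hn⟩))))⟩
  set N : Fin 2 → ℕ := fun i => Fintype.card (SG n A (μ i)) - 1 with hN
  have hN1 : ∀ i, Fintype.card (SG n A (μ i)) = N i + 1 := fun i => by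
    have := hpos i
    simp only [hN]
    omega
  let e : ∀ i, SG n A (μ i) ≃ Fin (N i + 1) := fun i =>
    (Fintype.equivFin _).trans (finCongr (hN1 i))
  let F : (i : Fin 2) → MvPolynomial (Fin (N i + 1)) ℂ := fun i =>
    MvPolynomial.rename (e i) (GG (Zs i) (l i) MvPolynomial.X)
  have hF : ∀ i, F i = GG (Zs i) (l i) (fun s => MvPolynomial.X (e i s)) := by
    intro i
    simp only [F]
    rw [GG_map]
    simp only [MvPolynomial.rename_X]
  have hX : ∀ i s, (MvPolynomial.X (e i s) : MvPolynomial (Fin (N i + 1)) ℂ) ∈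
      MvPolynomial.homogeneousSubmodule (Fin (N i + 1)) ℂ 1 := fun i s =>
    MvPolynomial.isHomogeneous_X _ _
  choose r0 hr0 using fun i => GG_wr (Zs i) (l i) _ (hX i)
  have hhom : ∀ i, (F i).IsHomogeneous 3 := by
    intro i
    rw [hF]
    exact (hr0 i).isHomogeneous
  have h := H 2 N 3 (by norm_num) F hhom
  -- lower bounds
  set rk : Fin 2 → ℕ := fun i => sInf {r : ℕ | ∃ L : Fin r → MvPolynomial (Fin (N i + 1)) ℂ,
        (∀ j, (L j).IsHomogeneous 1) ∧ F i = ∑ j, (L j) ^ 3} with hrk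
  have hlow : ∀ i, ∃ t : ℕ, t + 3 * μ i = rk i ∧
      (2 * t ≤ 3 * n ^ 4 + 16 * n ^ 3 + 12 * n ^ 2 → False) := by
    intro i
    have hne : {r : ℕ | ∃ L : Fin r → MvPolynomial (Fin (N i + 1)) ℂ,
        (∀ j, (L j).IsHomogeneous 1) ∧ F i = ∑ j, (L j) ^ 3}.Nonempty := by
      refine ⟨r0 i, ?_⟩
      have h1 := (hr0 i).toFin
      rw [← hF] at h1
      exact h1
    obtain ⟨L, hL1, hL2⟩ := Nat.sInf_mem hne
    obtain ⟨D, hDZ, hDW⟩ := hfam i
    obtain ⟨t, r', j, ht, ht1, ht2, ht3⟩ := lower (Ws i) (Zs i) (l i) (hl i) (hsp i) D hDZ hDW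
      (rk i) (fun j => MvPolynomial.rename (e i).symm (L j))
      (fun j => (hL1 j).rename_isHomogeneous) (by
        have h1 := congrArg (MvPolynomial.rename (e i).symm) hL2
        simp only [F] at h1
        rw [MvPolynomial.rename_rename] at h1
        simp only [Equiv.symm_comp_self, MvPolynomial.rename_id_apply, map_sum, map_pow] at h1
        exact h1) D0 θ
    exact ⟨t, ht, fun h2 => hnum t r' j h2 ht1 ht2 ht3⟩
  choose t ht htF using hlow
  -- upper bound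
  have hup : sInf {r : ℕ | ∃ L : Fin r → MvPolynomial (Σ i : Fin 2, Fin (N i + 1)) ℂ,
        (∀ j, (L j).IsHomogeneous 1) ∧
        ∑ i, MvPolynomial.rename (Sigma.mk (β := fun k => Fin (N k + 1)) i) (F i)
          = ∑ j, (L j) ^ 3} ≤ 3 * n ^ 4 + 16 * n ^ 3 + 12 * n ^ 2 + 3 * μ 0 + 3 * μ 1 := by
    apply Nat.sInf_le
    have h1 := upper (Lin := MvPolynomial.homogeneousSubmodule (Σ i : Fin 2, Fin (N i + 1)) ℂ 1)
      Z W (l 0) (l 1)
      (fun κ => by
        rw [hsp 0]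
        exact SS_mem (Ws 0) κ)
      (fun κ => by
        rw [hsp 1]
        exact SS_mem (Ws 1) κ)
      (fun s => MvPolynomial.X ⟨0, e 0 s⟩) (fun s => MvPolynomial.X ⟨1, e 1 s⟩)
      (fun s => MvPolynomial.isHomogeneous_X _ _) (fun s => MvPolynomial.isHomogeneous_X _ _)
    obtain ⟨L, hL1, hL2⟩ := h1.toFin
    refine ⟨L, hL1, ?_⟩
    rw [← hL2, Fin.sum_univ_two]
    rw [hF, hF, GG_map, GG_map]
    simp only [MvPolynomial.rename_X]
    rfl
  rw [h, Fin.sum_univ_two] at hup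
  change rk 0 + rk 1 ≤ _ at hup
  have h0 := ht 0
  have h1 := ht 1
  have f0 := htF 0
  have f1 := htF 1
  by_cases hc : 2 * t 0 ≤ 3 * n ^ 4 + 16 * n ^ 3 + 12 * n ^ 2
  · exact f0 hc
  · refine f1 ?_
    omega

end Pool.Agent.H92.WR
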