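import Pool.Agent.H92.WR.CoreC

set_option autoImplicit false

/-!
The gadget: a space `M` of matrices spanned by squares of linear forms which meets
the space of the matrices `S z` exactly in the span of the `S (W κ)`.
-/

namespace Pool.Agent.H92.WR

open Module

/-- Pairs of indices. -/
abbrev I2 (n : ℕ) : Type := Fin n × Fin n
/-- Pairs of pairs. -/
abbrev QQ (n : ℕ) : Type := I2 n × I2 n
/-- The set indexing the quadrics. -/
abbrev KK (A : ℕ) : Type := Fin A × Fin A
/-- Variables on one side. -/
abbrev Side (n A : ℕ) : Type := I2 n ⊕ (Fin A × Fin n)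
/-- All variables. -/
abbrev PP (n A : ℕ) : Type := Side n A ⊕ Side n A

variable {n A : ℕ}

/-- The symmetric matrix with off-diagonal block `m`. -/
def blk : (Side n A → Side n A → ℂ) →ₗ[ℂ] (PP n A → PP n A → ℂ) where
  toFun m
    | .inl s, .inr s' => m s s'
    | .inr s', .inl s => m s s'
    | .inl _, .inl _ => 0
    | .inr _, .inr _ => 0
  map_add' := by
    intro a b
    ext (p | p) (q | q) <;> simp
  map_smul' := by
    intro c a
    ext (p | p) (q | q) <;> simp

/-- Place a matrix in the block of the main variables. -/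
def incl : (QQ n → ℂ) →ₗ[ℂ] (Side n A → Side n A → ℂ) where
  toFun z
    | .inl p, .inl q => z (p, q)
    | .inl _, .inr _ => 0
    | .inr _, .inl _ => 0
    | .inr _, .inr _ => 0
  map_add' := by
    intro a b
    ext (p | p) (q | q) <;> simp
  map_smul' := by
    intro c a
    ext (p | p) (q | q) <;> simp

/-- The matrix of the quadric with coefficients `z`. -/
def SS : (QQ n → ℂ) →ₗ[ℂ] (PP n A → PP n A → ℂ) := blk.comp incl

theorem SS_deriv (d : Derivation ℚ ℂ ℂ) (z : QQ n → ℂ) :
    (fun p p' => d ((SS z : PP n A → PP n A → ℂ) p p')) = SS (dc d z) := by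
  ext ((p | p) | (p | p)) ((q | q) | (q | q)) <;> simp [SS, blk, incl, dc]

/-- Indices of the generators. -/
inductive Gen (n A : ℕ) : Type
  | i (κ : KK A) (p : I2 n)
  | ii (e : Fin A × Fin n) (q : I2 n)
  | iii (p : I2 n) (e : Fin A × Fin n)
  | iv (κ : KK A)

/-- The left factor. -/
def gl : Gen n A → Side n A → ℂ
  | .i _ p, .inl p' => if p' = p then 1 else 0
  | .i κ p, .inr e => if e = (κ.1, p.1) then 1 else 0
  | .ii _ _, .inl _ => 0
  | .ii e _, .inr e' => if e' = e then 1 else 0
  | .iii p _, .inl p' => if p' = p then 1 else 0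
  | .iii _ _, .inr _ => 0
  | .iv _, .inl _ => 0
  | .iv κ, .inr e => if e.1 = κ.1 then 1 else 0

/-- The right factor. -/
def hr (W : KK A → QQ n → ℂ) : Gen n A → Side n A → ℂ
  | .i κ p, .inl q => W κ (p, q)
  | .i κ p, .inr e => if e = (κ.2, p.2) then 1 else 0
  | .ii _ q, .inl q' => if q' = q then 1 else 0
  | .ii _ _, .inr _ => 0
  | .iii _ _, .inl _ => 0
  | .iii _ e, .inr e' => if e' = e then 1 else 0
  | .iv _, .inl _ => 0
  | .iv κ, .inr e => if e.1 = κ.2 then 1 else 0

/-- The generating linear forms. -/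
def lf (W : KK A → QQ n → ℂ) (t : Gen n A × Bool × Bool) : PP n A → ℂ
  | .inl s => if t.2.1 then gl t.1 s else 0
  | .inr s => if t.2.2 then hr W t.1 s else 0

/-- The square of a linear form. -/
def sq {P : Type} (l : P → ℂ) : P → P → ℂ := fun p p' => l p * l p'

/-- The span of the squares. -/
def MM (W : KK A → QQ n → ℂ) : Submodule ℂ (PP n A → PP n A → ℂ) :=
  Submodule.span ℂ (Set.range fun t => sq (lf W t))

theorem sym_mem (W : KK A → QQ n → ℂ) (t : Gen n A) :
    blk (fun s s' => gl t s * hr W t s') ∈ MM W := by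
  have h : blk (fun s s' => gl t s * hr W t s') =
      sq (lf W (t, true, true)) - sq (lf W (t, true, false)) - sq (lf W (t, false, true)) := by
    ext (p | p) (q | q) <;> simp [blk, sq, lf, mul_comm]
  rw [h]
  refine Submodule.sub_mem _ (Submodule.sub_mem _ ?_ ?_) ?_ <;>
    exact Submodule.subset_span ⟨_, rfl⟩

theorem incl_eq (W : KK A → QQ n → ℂ) (κ : KK A) :
    (incl (W κ) : Side n A → Side n A → ℂ) =
      (∑ p, fun s s' => gl (.i κ p) s * hr W (.i κ p) s') -
      (∑ p, fun s s' => gl (.iii p (κ.2, p.2)) s * hr W (.iii p (κ.2, p.2)) s') -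
      (∑ p, ∑ q, W κ (p, q) • fun s s' => gl (.ii (κ.1, p.1) q) s * hr W (.ii (κ.1, p.1) q) s') -
      (fun s s' => gl (.iv κ) s * hr W (.iv κ) s') := by
  ext s s'
  simp only [Pi.sub_apply, Finset.sum_apply, Pi.smul_apply, smul_eq_mul]
  rcases s with p | ⟨a, i⟩ <;> rcases s' with q | ⟨b, j⟩
  · simp [incl, gl, hr]
  · simp [incl, gl, hr]
  · simp [incl, gl, hr]
  · simp only [incl, LinearMap.coe_mk, AddHom.coe_mk, gl, hr, mul_zero, zero_mul,
      Finset.sum_const_zero, sub_zero, Prod.mk.injEq]
    by_cases ha : a = κ.1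
    · by_cases hb : b = κ.2
      · rw [Fintype.sum_prod_type]
        simp [ha, hb]
      · simp [ha, hb]
    · simp [ha]

theorem SS_mem (W : KK A → QQ n → ℂ) (κ : KK A) :
    (SS (W κ) : PP n A → PP n A → ℂ) ∈ MM W := by
  rw [SS, LinearMap.comp_apply, incl_eq, map_sub, map_sub, map_sub, map_sum, map_sum, map_sum]
  refine Submodule.sub_mem _ (Submodule.sub_mem _ (Submodule.sub_mem _ ?_ ?_) ?_) ?_
  · exact Submodule.sum_mem _ fun p _ => sym_mem W _
  · exact Submodule.sum_mem _ fun p _ => sym_mem W _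
  · refine Submodule.sum_mem _ fun p _ => ?_
    rw [map_sum]
    refine Submodule.sum_mem _ fun q _ => ?_
    rw [map_smul]
    exact Submodule.smul_mem _ _ (sym_mem W _)
  · exact sym_mem W _

/-- The functional detecting the main block modulo the gadget. -/
def NN (W : KK A → QQ n → ℂ) : (PP n A → PP n A → ℂ) →ₗ[ℂ] (QQ n → ℂ) where
  toFun T x := T (.inl (.inl x.1)) (.inr (.inl x.2)) -
    ∑ κ : KK A, W κ x * T (.inl (.inr (κ.1, x.1.1))) (.inr (.inr (κ.2, x.1.2)))
  map_add' := by
    intro a b
    ext x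
    simp only [Pi.add_apply, mul_add, Finset.sum_add_distrib]
    ring
  map_smul' := by
    intro c a
    ext x
    simp only [Pi.smul_apply, smul_eq_mul, RingHom.id_apply, mul_sub, Finset.mul_sum]
    congr 1
    exact Finset.sum_congr rfl fun κ _ => by ring

theorem NN_SS (W : KK A → QQ n → ℂ) (z : QQ n → ℂ) : NN W (SS z) = z := by
  ext ⟨p, q⟩
  simp [NN, SS, blk, incl]

theorem NN_sq (W : KK A → QQ n → ℂ) (t : Gen n A × Bool × Bool) :
    NN W (sq (lf W t)) ∈ Submodule.span ℂ (Set.range W) := by
  obtain ⟨t, α, β⟩ := t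
  by_cases hα : α = true
  · by_cases hβ : β = true
    · subst hα
      subst hβ
      rcases t with ⟨κ, p⟩ | ⟨e, q⟩ | ⟨p, e⟩ | κ
      · have : NN W (sq (lf W (Gen.i κ p, true, true))) = 0 := by
          ext ⟨p', q'⟩
          simp only [NN, sq, lf, gl, hr, LinearMap.coe_mk, AddHom.coe_mk, if_true, Prod.mk.injEq,
            Pi.zero_apply]
          by_cases hp : p' = p
          · subst hp
            rw [Finset.sum_eq_single κ]
            · simp
            · intro κ' _ hκ'
              have : ¬ (κ'.1 = κ.1 ∧ κ'.2 = κ.2) := fun h => hκ' (Prod.ext h.1 h.2)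
              by_cases h1 : κ'.1 = κ.1
              · have h2 : κ'.2 ≠ κ.2 := fun h => this ⟨h1, h⟩
                simp [h2]
              · simp [h1]
            · intro h
              exact absurd (Finset.mem_univ _) h
          · have h0 : ∀ κ' : KK A, W κ' (p', q') * ((if κ'.1 = κ.1 ∧ p'.1 = p.1 then 1 else 0) *
                (if κ'.2 = κ.2 ∧ p'.2 = p.2 then (1 : ℂ) else 0)) = 0 := by
              intro κ'
              by_cases h1 : p'.1 = p.1
              · have h2 : p'.2 ≠ p.2 := fun h => hp (Prod.ext h1 h)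
                simp [h2]
              · simp [h1]
            rw [Finset.sum_eq_zero fun κ' _ => h0 κ']
            simp [hp]
        rw [this]
        exact Submodule.zero_mem _
      · have : NN W (sq (lf W (Gen.ii e q, true, true))) = 0 := by
          ext ⟨p', q'⟩
          simp [NN, sq, lf, gl, hr]
        rw [this]
        exact Submodule.zero_mem _
      · have : NN W (sq (lf W (Gen.iii p e, true, true))) = 0 := by
          ext ⟨p', q'⟩
          simp [NN, sq, lf, gl, hr]
        rw [this]
        exact Submodule.zero_mem _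
      · have : NN W (sq (lf W (Gen.iv κ, true, true))) = - W κ := by
          ext ⟨p', q'⟩
          simp only [NN, sq, lf, gl, hr, LinearMap.coe_mk, AddHom.coe_mk, if_true,
            Pi.neg_apply, mul_zero, zero_sub, neg_inj]
          rw [Finset.sum_eq_single κ]
          · simp
          · intro κ' _ hκ'
            have : ¬ (κ'.1 = κ.1 ∧ κ'.2 = κ.2) := fun h => hκ' (Prod.ext h.1 h.2)
            by_cases h1 : κ'.1 = κ.1
            · have h2 : κ'.2 ≠ κ.2 := fun h => this ⟨h1, h⟩
              simp [h2]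
            · simp [h1]
          · intro h
            exact absurd (Finset.mem_univ _) h
        rw [this]
        exact Submodule.neg_mem _ (Submodule.subset_span ⟨κ, rfl⟩)
    · have : NN W (sq (lf W (t, α, β))) = 0 := by
        ext ⟨p', q'⟩
        simp [NN, sq, lf, hβ]
      rw [this]
      exact Submodule.zero_mem _
  · have : NN W (sq (lf W (t, α, β))) = 0 := by
      ext ⟨p', q'⟩
      simp [NN, sq, lf, hα]
    rw [this]
    exact Submodule.zero_mem _

theorem finrank_comap_SS (W : KK A → QQ n → ℂ) :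
    finrank ℂ ((MM W).comap (SS : (QQ n → ℂ) →ₗ[ℂ] (PP n A → PP n A → ℂ))) ≤
      Fintype.card (KK A) := by
  have h1 : (MM W).comap (SS : (QQ n → ℂ) →ₗ[ℂ] (PP n A → PP n A → ℂ)) ≤
      Submodule.span ℂ (Set.range W) := by
    intro z hz
    rw [Submodule.mem_comap] at hz
    have h2 : (MM W) ≤ (Submodule.span ℂ (Set.range W)).comap (NN W) := by
      rw [MM, Submodule.span_le]
      rintro _ ⟨t, rfl⟩
      exact NN_sq W t
    have h3 := h2 hz
    rw [Submodule.mem_comap, NN_SS] at h3
    exact h3
  exact (Submodule.finrank_mono h1).trans (finrank_range_le_card (R := ℂ) W)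

theorem MM_stable (W : KK A → QQ n → ℂ) (d : Derivation ℚ ℂ ℂ)
    (hd : ∀ κ q, d (W κ q) = 0) :
    ∀ T ∈ MM W, (fun p p' => d (T p p')) ∈ MM W := by
  intro T hT
  unfold MM at hT
  induction hT using Submodule.span_induction with
  | mem x hx =>
    obtain ⟨t, rfl⟩ := hx
    have h1 : ∀ p, d (lf W t p) = 0 := by
      rintro (s | s)
      · simp only [lf]
        split_ifs
        · rcases t with ⟨⟨κ, p⟩ | ⟨e, q⟩ | ⟨p, e⟩ | κ, _⟩ <;> rcases s with s | s <;>
            simp only [gl] <;> (try split_ifs) <;> simp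
        · simp
      · simp only [lf]
        split_ifs
        · rcases t with ⟨⟨κ, p⟩ | ⟨e, q⟩ | ⟨p, e⟩ | κ, _⟩ <;> rcases s with s | s <;>
            simp only [hr] <;> (try split_ifs) <;> simp [hd]
        · simp
    have h2 : (fun p p' => d (sq (lf W t) p p')) = 0 := by
      ext p p'
      simp [sq, h1]
    rw [h2]
    exact Submodule.zero_mem _
  | zero =>
    have h2 : (fun p p' => d ((0 : PP n A → PP n A → ℂ) p p')) = 0 := by
      ext p p'
      simp
    rw [h2]
    exact Submodule.zero_mem _
  | add x y _ _ hx hy =>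
    have h2 : (fun p p' => d ((x + y) p p')) = (fun p p' => d (x p p')) + fun p p' => d (y p p') := by
      ext p p'
      simp
    rw [h2]
    exact Submodule.add_mem _ hx hy
  | smul c x hx' hx =>
    have h2 : (fun p p' => d ((c • x) p p')) = c • (fun p p' => d (x p p')) + d c • x := by
      ext p p'
      simp only [Pi.smul_apply, smul_eq_mul, Derivation.leibniz, Pi.add_apply]
      ring
    rw [h2]
    exact Submodule.add_mem _ (Submodule.smul_mem _ _ hx) (Submodule.smul_mem _ _ hx')

theorem exists_basis (W : KK A → QQ n → ℂ) :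
    ∃ (μ : ℕ) (l : Fin μ → PP n A → ℂ), LinearIndependent ℂ (fun m => sq (l m)) ∧
      Submodule.span ℂ (Set.range fun m => sq (l m)) = MM W := by
  obtain ⟨κ, a, _, ha2, ha3⟩ := exists_linearIndependent' ℂ (fun t => sq (lf W t))
  have hfin : Finite κ := ha3.finite
  obtain ⟨μ, ⟨e⟩⟩ := Finite.exists_equiv_fin κ
  refine ⟨μ, fun m => lf W (a (e.symm m)), ?_, ?_⟩
  · exact ha3.comp e.symm e.symm.injective
  · rw [MM, ← ha2]
    congr 1
    ext x
    constructor
    · rintro ⟨m, rfl⟩
      exact ⟨e.symm m, rfl⟩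
    · rintro ⟨k, rfl⟩
      exact ⟨e k, by simp⟩

end Pool.Agent.H92.WR
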