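import Mathlib

set_option autoImplicit false

/-!
Linear algebra lemmas used in the lower bound.
-/

namespace Pool.Agent.H92.WR

open Module

/-- Orthogonal of a subspace of `X → ℂ` for the dot product. -/
noncomputable def perp {X : Type} [Fintype X] (W : Submodule ℂ (X → ℂ)) : Submodule ℂ (X → ℂ) where
  carrier := {v | ∀ w ∈ W, ∑ x, v x * w x = 0}
  add_mem' := by
    intro a b ha hb w hw
    have h1 := ha w hw
    have h2 := hb w hw
    simp only [Pi.add_apply, add_mul, Finset.sum_add_distrib]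
    rw [h1, h2, add_zero]
  zero_mem' := by
    intro w _
    simp
  smul_mem' := by
    intro c a ha w hw
    have h1 := ha w hw
    simp only [Pi.smul_apply, smul_eq_mul, mul_assoc]
    rw [← Finset.mul_sum, h1, mul_zero]

theorem mem_perp {X : Type} [Fintype X] {W : Submodule ℂ (X → ℂ)} {v : X → ℂ} :
    v ∈ perp W ↔ ∀ w ∈ W, ∑ x, v x * w x = 0 := Iff.rfl

theorem finrank_perp {X : Type} [Fintype X] (W : Submodule ℂ (X → ℂ)) :
    finrank ℂ W + finrank ℂ (perp W) = Fintype.card X := by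
  classical
  have h1 := Subspace.finrank_add_finrank_dualAnnihilator_eq (K := ℂ) W
  have h2 : perp W = W.dualAnnihilator.comap (dotProductEquiv ℂ X).toLinearMap := by
    ext v
    rw [mem_perp, Submodule.mem_comap, Submodule.mem_dualAnnihilator]
    rfl
  have h3 : finrank ℂ (perp W) = finrank ℂ W.dualAnnihilator := by
    rw [h2]
    exact LinearEquiv.finrank_eq ((dotProductEquiv ℂ X).ofSubmodule' _)
  rw [h3, h1, Module.finrank_fintype_fun_eq_card]

/-- Rank-nullity as an inequality. -/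
theorem finrank_le_ker_add {V W : Type} [AddCommGroup V] [Module ℂ V] [FiniteDimensional ℂ V]
    [AddCommGroup W] [Module ℂ W] [FiniteDimensional ℂ W] (f : V →ₗ[ℂ] W) :
    finrank ℂ V ≤ finrank ℂ (LinearMap.ker f) + finrank ℂ W := by
  have h1 := LinearMap.finrank_range_add_finrank_ker f
  have h2 : finrank ℂ (LinearMap.range f) ≤ finrank ℂ W := Submodule.finrank_le _
  omega

/-- The main dimension count. -/
theorem finrank_le_of_maps {V W₁ W₂ : Type} [AddCommGroup V] [Module ℂ V] [FiniteDimensional ℂ V]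
    [AddCommGroup W₁] [Module ℂ W₁] [FiniteDimensional ℂ W₁]
    [AddCommGroup W₂] [Module ℂ W₂] [FiniteDimensional ℂ W₂]
    {K : Type} [Fintype K] (Δ : Submodule ℂ V) (A : K → V →ₗ[ℂ] W₁) (G : K → Submodule ℂ W₁)
    (hA : ∀ δ ∈ Δ, ∀ κ, A κ δ ∈ G κ) (B : K → V →ₗ[ℂ] W₂) (N : Submodule ℂ W₂)
    (hker : ∀ δ ∈ Δ, (∀ κ, A κ δ = 0) → ∀ κ, B κ δ ∈ N)
    (hinj : ∀ δ, (∀ κ, B κ δ = 0) → δ = 0) (a n : ℕ)
    (ha : ∀ κ, finrank ℂ (G κ) ≤ a) (hn : finrank ℂ N ≤ n) :
    finrank ℂ Δ ≤ Fintype.card K * a + Fintype.card K * n := by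
  let F : Δ →ₗ[ℂ] ((κ : K) → G κ) := LinearMap.pi fun κ =>
    ((A κ).comp Δ.subtype).codRestrict (G κ) (fun δ => hA δ δ.2 κ)
  have h1 := finrank_le_ker_add F
  have h2 : finrank ℂ ((κ : K) → G κ) ≤ Fintype.card K * a := by
    rw [Module.finrank_pi_fintype]
    calc ∑ κ, finrank ℂ (G κ) ≤ ∑ _κ : K, a := Finset.sum_le_sum fun κ _ => ha κ
      _ = Fintype.card K * a := by simp
  let F' : LinearMap.ker F →ₗ[ℂ] (K → N) := LinearMap.pi fun κ =>
    ((B κ).comp (Δ.subtype.comp (LinearMap.ker F).subtype)).codRestrict N (by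
      rintro ⟨⟨δ, hδ⟩, hk⟩
      refine hker δ hδ ?_ κ
      intro κ'
      have h3 := congrFun (LinearMap.mem_ker.1 hk) κ'
      exact congrArg Subtype.val h3)
  have h3 : Function.Injective F' := by
    rw [← LinearMap.ker_eq_bot, LinearMap.ker_eq_bot']
    rintro ⟨⟨δ, hδ⟩, hk⟩ h0
    have : δ = 0 := by
      apply hinj
      intro κ
      exact congrArg Subtype.val (congrFun h0 κ)
    subst this
    rfl
  have h4 : finrank ℂ (LinearMap.ker F) ≤ finrank ℂ (K → N) :=
    LinearMap.finrank_le_finrank_of_injective h3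
  have h5 : finrank ℂ (K → N) ≤ Fintype.card K * n := by
    rw [Module.finrank_pi_fintype]
    calc ∑ _κ : K, finrank ℂ N ≤ ∑ _κ : K, n := Finset.sum_le_sum fun κ _ => hn
      _ = Fintype.card K * n := by simp
  omega

/-- A subspace of `P → ℂ` has a basis dual to a set of coordinates. -/
theorem exists_coord_basis {P : Type} [Fintype P] [DecidableEq P] (Λ : Submodule ℂ (P → ℂ)) :
    ∃ (σ : Finset P) (μ : P → (P → ℂ)), (∀ x ∈ σ, μ x ∈ Λ) ∧
      (∀ x ∈ σ, ∀ y ∈ σ, μ x y = if x = y then 1 else 0) ∧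
      (∀ l ∈ Λ, (∀ y ∈ σ, l y = 0) → l = 0) := by
  classical
  -- minimal set of coordinates that separates
  let good : Finset P → Prop := fun σ => ∀ l ∈ Λ, (∀ y ∈ σ, l y = 0) → l = 0
  have hne : (Finset.univ.filter good).Nonempty := by
    refine ⟨Finset.univ, ?_⟩
    rw [Finset.mem_filter]
    refine ⟨Finset.mem_univ _, ?_⟩
    intro l _ hl
    ext y
    exact hl y (Finset.mem_univ _)
  obtain ⟨σ, hσ, hmin⟩ := Finset.exists_min_image _ Finset.card hne
  rw [Finset.mem_filter] at hσ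
  have hσ2 : good σ := hσ.2
  let ρ : Λ →ₗ[ℂ] (σ → ℂ) := LinearMap.pi fun y => (LinearMap.proj (y : P)).comp Λ.subtype
  have hsurj : LinearMap.range ρ = ⊤ := by
    by_contra hcon
    have hlt : finrank ℂ (LinearMap.range ρ) < Fintype.card σ := by
      have h1 := Submodule.finrank_lt hcon
      rwa [Module.finrank_fintype_fun_eq_card] at h1
    have h2 := finrank_perp (LinearMap.range ρ)
    have h3 : 0 < finrank ℂ (perp (LinearMap.range ρ)) := by omega
    obtain ⟨⟨c, hc⟩, hc0⟩ := Module.finrank_pos_iff_exists_ne_zero.1 h3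
    have hc1 : c ≠ 0 := fun h => hc0 (Subtype.ext h)
    obtain ⟨y0, hy0⟩ := Function.ne_iff.1 hc1
    have hbad : good (σ.erase y0) := by
      intro l hl hly
      apply hσ2 l hl
      intro y hy
      by_cases hyy : y = y0
      · have h4 := hc _ ⟨⟨l, hl⟩, rfl⟩
        have h5 : ∑ x : σ, c x * l x = c y0 * l y0 := by
          rw [Finset.sum_eq_single y0]
          · intro b _ hb
            rw [hly b, mul_zero]
            rw [Finset.mem_erase]
            exact ⟨fun h => hb (Subtype.ext h), b.2⟩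
          · intro h
            exact absurd (Finset.mem_univ _) h
        have h6 : c y0 * l y0 = 0 := by rw [← h5]; exact h4
        rw [hyy]
        exact (mul_eq_zero.1 h6).resolve_left hy0
      · exact hly y (Finset.mem_erase.2 ⟨hyy, hy⟩)
    have h7 := hmin (σ.erase y0) (Finset.mem_filter.2 ⟨Finset.mem_univ _, hbad⟩)
    have h8 := Finset.card_erase_lt_of_mem y0.2
    omega
  have hs : Function.Surjective ρ := LinearMap.range_eq_top.1 hsurj
  choose μ hμ using fun x : P => hs (fun y : σ => if x = y then 1 else 0)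
  refine ⟨σ, fun x => (μ x : P → ℂ), fun x _ => (μ x).2, ?_, hσ2⟩
  intro x _ y hy
  exact congrFun (hμ x) ⟨y, hy⟩

/-- Selection of few vectors spanning modulo `H`. -/
theorem exists_small_span {W P : Type} [AddCommGroup W] [Module ℂ W] [FiniteDimensional ℂ W]
    [DecidableEq P] (H : Submodule ℂ W) (σ : Finset P) (a : P → W) (D0 : ℕ)
    (hD : ∀ τ ⊆ σ, finrank ℂ (H ⊔ Submodule.span ℂ (a '' τ) : Submodule ℂ W) ≤ finrank ℂ H + D0) :
    ∃ τ ⊆ σ, τ.card ≤ D0 ∧ ∀ x ∈ σ, a x ∈ H ⊔ Submodule.span ℂ (a '' (τ : Set P)) := by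
  classical
  let good : Finset P → Prop := fun τ =>
    finrank ℂ H + τ.card ≤ finrank ℂ (H ⊔ Submodule.span ℂ (a '' (τ : Set P)) : Submodule ℂ W)
  have hne : (σ.powerset.filter good).Nonempty := by
    refine ⟨∅, ?_⟩
    rw [Finset.mem_filter]
    refine ⟨Finset.empty_mem_powerset _, ?_⟩
    change _ + _ ≤ _
    rw [Finset.card_empty, add_zero]
    exact Submodule.finrank_mono le_sup_left
  obtain ⟨τ, hτ, hmax⟩ := Finset.exists_max_image _ Finset.card hne
  rw [Finset.mem_filter, Finset.mem_powerset] at hτ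
  have hτ2 : finrank ℂ H + τ.card ≤
    finrank ℂ (H ⊔ Submodule.span ℂ (a '' (τ : Set P)) : Submodule ℂ W) := hτ.2
  refine ⟨τ, hτ.1, ?_, ?_⟩
  · have h1 := hD τ hτ.1
    omega
  · intro x hx
    by_contra hcon
    have hxτ : x ∉ τ := fun h => hcon (Submodule.mem_sup_right (Submodule.subset_span ⟨x, h, rfl⟩))
    have hle : (H ⊔ Submodule.span ℂ (a '' (τ : Set P)) : Submodule ℂ W) <
        H ⊔ Submodule.span ℂ (a '' ((insert x τ : Finset P) : Set P)) := by
      refine lt_of_le_of_ne ?_ ?_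
      · refine sup_le_sup_left (Submodule.span_mono (Set.image_mono ?_)) _
        exact_mod_cast Finset.subset_insert x τ
      · intro h
        apply hcon
        rw [h]
        refine Submodule.mem_sup_right (Submodule.subset_span ⟨x, ?_, rfl⟩)
        exact_mod_cast Finset.mem_insert_self x τ
    have h2 := Submodule.finrank_lt_finrank_of_lt hle
    have h3 := hmax (insert x τ) (by
      rw [Finset.mem_filter, Finset.mem_powerset]
      refine ⟨Finset.insert_subset hx hτ.1, ?_⟩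
      change _ + _ ≤ _
      rw [Finset.card_insert_of_notMem hxτ]
      omega)
    rw [Finset.card_insert_of_notMem hxτ] at h3
    omega

/-- Selection of a subspace containing many vectors. -/
theorem exists_rich_set {J W : Type} [Fintype J] [DecidableEq J] [AddCommGroup W] [Module ℂ W]
    [FiniteDimensional ℂ W] (u : J → W) (θ : ℕ) :
    ∃ S : Finset J, θ * finrank ℂ (Submodule.span ℂ (u '' (S : Set J))) ≤ S.card ∧
      ∀ T : Finset J, T.card + θ * finrank ℂ (Submodule.span ℂ (u '' (S : Set J))) ≤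
        S.card + θ * finrank ℂ (Submodule.span ℂ (u '' (T : Set J))) := by
  classical
  obtain ⟨S, _, hS⟩ := Finset.exists_max_image (Finset.univ : Finset (Finset J))
    (fun T => (T.card : ℤ) - θ * finrank ℂ (Submodule.span ℂ (u '' (T : Set J))))
    Finset.univ_nonempty
  refine ⟨S, ?_, fun T => ?_⟩
  · have h1 := hS ∅ (Finset.mem_univ _)
    have h0 : Submodule.span ℂ (u '' ((∅ : Finset J) : Set J)) = ⊥ := by simp
    rw [h0, finrank_bot, Finset.card_empty] at h1
    simp only [Nat.cast_zero, mul_zero, sub_zero] at h1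
    have h2 : (θ : ℤ) * finrank ℂ (Submodule.span ℂ (u '' (S : Set J))) ≤ S.card := by linarith
    exact_mod_cast h2
  · have h1 := hS T (Finset.mem_univ _)
    have h2 : (T.card : ℤ) + θ * finrank ℂ (Submodule.span ℂ (u '' (S : Set J))) ≤
        S.card + θ * finrank ℂ (Submodule.span ℂ (u '' (T : Set J))) := by linarith
    exact_mod_cast h2

/-- Selection of few subspaces after which nothing grows by more than `D0`. -/
theorem exists_stable_sup {K W : Type} [Fintype K] [DecidableEq K] [AddCommGroup W] [Module ℂ W]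
    [FiniteDimensional ℂ W] (Λ : K → Submodule ℂ W) (D0 : ℕ) :
    ∃ I : Finset K, D0 * I.card ≤ finrank ℂ (⨆ i ∈ I, Λ i : Submodule ℂ W) ∧
      ∀ κ, finrank ℂ ((⨆ i ∈ I, Λ i) ⊔ Λ κ : Submodule ℂ W) ≤
        finrank ℂ (⨆ i ∈ I, Λ i : Submodule ℂ W) + D0 := by
  classical
  obtain ⟨I, _, hI⟩ := Finset.exists_max_image (Finset.univ : Finset (Finset K))
    (fun T => (finrank ℂ (⨆ i ∈ T, Λ i : Submodule ℂ W) : ℤ) - D0 * T.card)
    Finset.univ_nonempty
  refine ⟨I, ?_, fun κ => ?_⟩
  · have h1 := hI ∅ (Finset.mem_univ _)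
    have h0 : (⨆ i ∈ (∅ : Finset K), Λ i : Submodule ℂ W) = ⊥ := by simp
    rw [h0, finrank_bot, Finset.card_empty] at h1
    simp only [Nat.cast_zero, mul_zero, sub_zero] at h1
    have h2 : (D0 : ℤ) * I.card ≤ finrank ℂ (⨆ i ∈ I, Λ i : Submodule ℂ W) := by linarith
    exact_mod_cast h2
  · by_cases hκ : κ ∈ I
    · have h2 : (⨆ i ∈ I, Λ i) ⊔ Λ κ = (⨆ i ∈ I, Λ i : Submodule ℂ W) :=
        sup_eq_left.2 (le_iSup₂_of_le κ hκ le_rfl)
      rw [h2]
      omega
    · have h1 := hI (insert κ I) (Finset.mem_univ _)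
      have h2 : (⨆ i ∈ insert κ I, Λ i : Submodule ℂ W) = (⨆ i ∈ I, Λ i) ⊔ Λ κ := by
        rw [Finset.iSup_insert, sup_comm]
      rw [h2, Finset.card_insert_of_notMem hκ] at h1
      push_cast at h1
      have h3 : (finrank ℂ ((⨆ i ∈ I, Λ i) ⊔ Λ κ : Submodule ℂ W) : ℤ) ≤
          finrank ℂ (⨆ i ∈ I, Λ i : Submodule ℂ W) + D0 := by linarith
      exact_mod_cast h3

end Pool.Agent.H92.WR
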