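import Pool.Agent.H92.WR.CoreC

set_option autoImplicit false

/-!
The substitution method.
-/

namespace Pool.Agent.H92.WR

open Module

/-- One elimination. -/
theorem elim {J X : Type} {μ : ℕ} [DecidableEq J] (η : J → Fin μ → ℂ) (a : J → X → ℂ)
    (J0 : Finset J)
    (h : ∀ φ : Fin μ → ℂ, (∀ j ∈ J0, ∑ m, φ m * η j m = 0) → φ = 0) :
    ∃ J1 ⊆ J0, J1.card = μ ∧ ∃ c : Fin μ → X → ℂ, ∀ j ∈ J1, ∀ x, a j x + ∑ m, η j m * c m x = 0 := by
  classical
  obtain ⟨κ, b, hb1, hb2, hb3⟩ := exists_linearIndependent' ℂ (fun j : J0 => η j)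
  have hfin : Finite κ := hb3.finite
  have _ : Fintype κ := Fintype.ofFinite κ
  have hperp : perp (Submodule.span ℂ (Set.range (fun j : J0 => η j))) = ⊥ := by
    rw [eq_bot_iff]
    intro φ hφ
    rw [Submodule.mem_bot]
    exact h φ fun j hj => hφ _ (Submodule.subset_span ⟨⟨j, hj⟩, rfl⟩)
  have htop : Submodule.span ℂ (Set.range (fun j : J0 => η j)) = ⊤ := by
    apply Submodule.eq_top_of_finrank_eq
    have h1 := finrank_perp (Submodule.span ℂ (Set.range (fun j : J0 => η j)))
    rw [hperp, finrank_bot, add_zero] at h1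
    rw [h1, Module.finrank_fintype_fun_eq_card]
  rw [htop] at hb2
  let B : Basis κ ℂ (Fin μ → ℂ) := Basis.mk hb3 hb2.ge
  have hcard : Fintype.card κ = μ := by
    have h1 := Module.finrank_eq_card_basis B
    rw [Module.finrank_fintype_fun_eq_card, Fintype.card_fin] at h1
    exact h1.symm
  refine ⟨Finset.univ.image (fun k => (b k : J)), ?_, ?_, ?_⟩
  · intro j hj
    rw [Finset.mem_image] at hj
    obtain ⟨k, _, rfl⟩ := hj
    exact (b k).2
  · have h1 : Function.Injective (fun k => (b k : J)) := Subtype.val_injective.comp hb1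
    rw [Finset.card_image_of_injective _ h1, Finset.card_univ, hcard]
  · refine ⟨fun m x => B.constr ℂ (fun k => - a (b k) x) (Pi.single m 1), ?_⟩
    intro j hj x
    rw [Finset.mem_image] at hj
    obtain ⟨k, _, rfl⟩ := hj
    set φ := B.constr ℂ (fun k => - a (b k) x) with hφ
    have h1 : φ (η (b k)) = - a (b k) x := by
      have h2 : η (b k) = B k := by
        rw [Basis.mk_apply]; rfl
      rw [h2, hφ, Basis.constr_basis]
    have h3 : η (b k) = ∑ m, η (b k) m • (Pi.single m 1 : Fin μ → ℂ) := by
      ext m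
      simp [Finset.sum_apply, Pi.single_apply]
    have h4 : φ (η (b k)) = ∑ m, η (b k) m * φ (Pi.single m 1) := by
      conv_lhs => rw [h3]
      rw [map_sum]
      exact Finset.sum_congr rfl fun m _ => by rw [map_smul, smul_eq_mul]
    rw [← h4, h1]
    ring

/-- The substitution method in the three slots of a symmetric tensor. -/
theorem subst {J X : Type} {μ : ℕ} [DecidableEq J] [Fintype J] (a : J → X ⊕ Fin μ → ℂ)
    (T : X ⊕ Fin μ → X ⊕ Fin μ → X ⊕ Fin μ → ℂ)
    (hT : ∀ x y z, ∑ j, a j x * a j y * a j z = T x y z)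
    (hspan : ∀ φ : Fin μ → ℂ,
      (∀ x y, ∑ m, φ m * T (.inl x) (.inl y) (.inr m) = 0) → φ = 0)
    (hzero : ∀ x m m', T x (.inr m) (.inr m') = 0) :
    ∃ (J' : Finset J) (u v w : J → X → ℂ) (c d e : Fin μ → X → ℂ), J'.card + 3 * μ = Fintype.card J ∧
      ∀ x y z, ∑ j ∈ J', u j x * v j y * w j z = T (.inl x) (.inl y) (.inl z) +
        (∑ m, e m x * T (.inl y) (.inl z) (.inr m)) +
        (∑ m, d m y * T (.inl x) (.inl z) (.inr m)) +
        (∑ m, c m z * T (.inl x) (.inl y) (.inr m)) := by
  classical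
  -- expansion of the sums
  have key : ∀ (e' d' c' : Fin μ → ℂ) (X1 X2 X3 : X ⊕ Fin μ),
      ∑ j, (a j X1 + ∑ m, a j (.inr m) * e' m) * (a j X2 + ∑ m, a j (.inr m) * d' m) *
        (a j X3 + ∑ m, a j (.inr m) * c' m) = T X1 X2 X3 +
        (∑ m, e' m * T X2 X3 (.inr m)) + (∑ m, d' m * T X1 X3 (.inr m)) +
        (∑ m, c' m * T X1 X2 (.inr m)) := by
    intro e' d' c' X1 X2 X3
    have hEE : ∀ (p : X ⊕ Fin μ) (f g : Fin μ → ℂ),
        ∑ j, a j p * (∑ m, a j (.inr m) * f m) * (∑ m, a j (.inr m) * g m) = 0 := by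
      intro p f g
      have : ∀ j, a j p * (∑ m, a j (.inr m) * f m) * (∑ m, a j (.inr m) * g m) =
          ∑ m, ∑ m', f m * g m' * (a j p * a j (.inr m) * a j (.inr m')) := by
        intro j
        rw [mul_assoc, Finset.sum_mul_sum, Finset.mul_sum]
        refine Finset.sum_congr rfl fun m _ => ?_
        rw [Finset.mul_sum]
        exact Finset.sum_congr rfl fun m' _ => by ring
      rw [Finset.sum_congr rfl fun j _ => this j, Finset.sum_comm]
      refine Finset.sum_eq_zero fun m _ => ?_
      rw [Finset.sum_comm]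
      refine Finset.sum_eq_zero fun m' _ => ?_
      rw [← Finset.mul_sum, hT, hzero, mul_zero]
    have hEEE : ∀ (f g h : Fin μ → ℂ),
        ∑ j, (∑ m, a j (.inr m) * f m) * (∑ m, a j (.inr m) * g m) *
          (∑ m, a j (.inr m) * h m) = 0 := by
      intro f g h
      have : ∀ j, (∑ m, a j (.inr m) * f m) * (∑ m, a j (.inr m) * g m) *
          (∑ m, a j (.inr m) * h m) =
          ∑ k, f k * (a j (.inr k) * (∑ m, a j (.inr m) * g m) * (∑ m, a j (.inr m) * h m)) := by
        intro j
        rw [mul_assoc, Finset.sum_mul]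
        exact Finset.sum_congr rfl fun m' _ => by ring
      rw [Finset.sum_congr rfl fun j _ => this j, Finset.sum_comm]
      refine Finset.sum_eq_zero fun m _ => ?_
      rw [← Finset.mul_sum, hEE, mul_zero]
    have hE : ∀ (p q : X ⊕ Fin μ) (f : Fin μ → ℂ),
        ∑ j, a j p * a j q * (∑ m, a j (.inr m) * f m) = ∑ m, f m * T p q (.inr m) := by
      intro p q f
      have : ∀ j, a j p * a j q * (∑ m, a j (.inr m) * f m) =
          ∑ m, f m * (a j p * a j q * a j (.inr m)) := by
        intro j
        rw [Finset.mul_sum]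
        exact Finset.sum_congr rfl fun m' _ => by ring
      rw [Finset.sum_congr rfl fun j _ => this j, Finset.sum_comm]
      refine Finset.sum_congr rfl fun m _ => ?_
      rw [← Finset.mul_sum, hT]
    have expand : ∀ j, (a j X1 + ∑ m, a j (.inr m) * e' m) * (a j X2 + ∑ m, a j (.inr m) * d' m) *
        (a j X3 + ∑ m, a j (.inr m) * c' m) =
        a j X1 * a j X2 * a j X3 + a j X2 * a j X3 * (∑ m, a j (.inr m) * e' m) +
        a j X1 * a j X3 * (∑ m, a j (.inr m) * d' m) +
        a j X1 * a j X2 * (∑ m, a j (.inr m) * c' m) +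
        a j X1 * (∑ m, a j (.inr m) * d' m) * (∑ m, a j (.inr m) * c' m) +
        a j X2 * (∑ m, a j (.inr m) * e' m) * (∑ m, a j (.inr m) * c' m) +
        a j X3 * (∑ m, a j (.inr m) * e' m) * (∑ m, a j (.inr m) * d' m) +
        (∑ m, a j (.inr m) * e' m) * (∑ m, a j (.inr m) * d' m) * (∑ m, a j (.inr m) * c' m) := by
      intro j; ring
    rw [Finset.sum_congr rfl fun j _ => expand j]
    simp only [Finset.sum_add_distrib]
    rw [hEE, hEE, hEE, hEEE, hE, hE, hE, hT]
    ring
  -- first elimination
  obtain ⟨J1, -, hJ1c, c, hc⟩ := elim (fun j m => a j (.inr m)) (fun j x => a j (.inl x))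
    Finset.univ (by
      intro φ hφ
      apply hspan
      intro x y
      have h1 : ∑ j, a j (.inl x) * a j (.inl y) * (∑ m, φ m * a j (.inr m)) = 0 :=
        Finset.sum_eq_zero fun j _ => by rw [hφ j (Finset.mem_univ _), mul_zero]
      rw [← h1]
      simp only [Finset.mul_sum]
      rw [Finset.sum_comm]
      refine Finset.sum_congr rfl fun m _ => ?_
      rw [← hT, Finset.mul_sum]
      exact Finset.sum_congr rfl fun j _ => by ring)
  set w : J → X → ℂ := fun j x => a j (.inl x) + ∑ m, a j (.inr m) * c m x with hw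
  -- second elimination
  obtain ⟨J2, hJ2, hJ2c, d, hd⟩ := elim (fun j m => a j (.inr m)) (fun j x => a j (.inl x))
    (Finset.univ \ J1) (by
      intro φ hφ
      apply hspan
      intro x y
      have h1 : ∑ j, a j (.inl x) * (∑ m, φ m * a j (.inr m)) * w j y = 0 := by
        refine Finset.sum_eq_zero fun j _ => ?_
        by_cases hj : j ∈ J1
        · rw [show w j y = 0 from hc j hj y, mul_zero]
        · rw [hφ j (by simp [hj]), mul_zero, zero_mul]
      rw [← h1]
      have h2 : ∀ m, ∑ j, a j (.inl x) * a j (.inr m) * w j y = T (.inl x) (.inl y) (.inr m) := by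
        intro m
        have h3 := key 0 0 (fun m => c m y) (.inl x) (.inr m) (.inl y)
        simp only [Pi.zero_apply, mul_zero, zero_mul, Finset.sum_const_zero, add_zero, hzero] at h3
        rw [h3, ← hT, ← hT]
        exact Finset.sum_congr rfl fun j _ => by ring
      simp only [← h2, Finset.mul_sum, Finset.sum_mul]
      rw [Finset.sum_comm]
      refine Finset.sum_congr rfl fun m _ => Finset.sum_congr rfl fun j _ => by ring)
  set v : J → X → ℂ := fun j x => a j (.inl x) + ∑ m, a j (.inr m) * d m x with hv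
  -- third elimination
  obtain ⟨J3, hJ3, hJ3c, e, he⟩ := elim (fun j m => a j (.inr m)) (fun j x => a j (.inl x))
    (Finset.univ \ (J1 ∪ J2)) (by
      intro φ hφ
      apply hspan
      intro x y
      have h1 : ∑ j, (∑ m, φ m * a j (.inr m)) * v j x * w j y = 0 := by
        refine Finset.sum_eq_zero fun j _ => ?_
        by_cases hj : j ∈ J1
        · rw [show w j y = 0 from hc j hj y, mul_zero]
        · by_cases hj2 : j ∈ J2
          · rw [show v j x = 0 from hd j hj2 x, mul_zero, zero_mul]
          · rw [hφ j (by simp [hj, hj2]), zero_mul, zero_mul]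
      rw [← h1]
      have h2 : ∀ m, ∑ j, a j (.inr m) * v j x * w j y = T (.inl x) (.inl y) (.inr m) := by
        intro m
        have h3 := key 0 (fun m => d m x) (fun m => c m y) (.inr m) (.inl x) (.inl y)
        have h4 : ∀ (z : X) m', T (.inr m) (.inl z) (.inr m') = 0 := by
          intro z m'
          rw [← hT]
          rw [← hzero (.inl z) m m', ← hT]
          exact Finset.sum_congr rfl fun j _ => by ring
        simp only [Pi.zero_apply, mul_zero, zero_mul, Finset.sum_const_zero, add_zero, h4] at h3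
        rw [h3, ← hT, ← hT]
        exact Finset.sum_congr rfl fun j _ => by ring
      simp only [← h2, Finset.mul_sum, Finset.sum_mul]
      rw [Finset.sum_comm]
      refine Finset.sum_congr rfl fun m _ => Finset.sum_congr rfl fun j _ => by ring)
  set u : J → X → ℂ := fun j x => a j (.inl x) + ∑ m, a j (.inr m) * e m x with hu
  refine ⟨Finset.univ \ ((J1 ∪ J2) ∪ J3), u, v, w, c, d, e, ?_, ?_⟩
  · have d12 : Disjoint J1 J2 := by
      rw [Finset.disjoint_left]
      intro j h1 h2
      have := hJ2 h2
      rw [Finset.mem_sdiff] at this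
      exact this.2 h1
    have d123 : Disjoint (J1 ∪ J2) J3 := by
      rw [Finset.disjoint_left]
      intro j h1 h2
      have := hJ3 h2
      rw [Finset.mem_sdiff] at this
      exact this.2 h1
    have h1 : ((J1 ∪ J2) ∪ J3).card = 3 * μ := by
      rw [Finset.card_union_of_disjoint d123, Finset.card_union_of_disjoint d12, hJ1c, hJ2c, hJ3c]
      ring
    have h2 := Finset.card_sdiff_add_card_eq_card (Finset.subset_univ ((J1 ∪ J2) ∪ J3))
    rw [h1, Finset.card_univ] at h2
    exact h2
  · intro x y z
    have h1 := key (fun m => e m x) (fun m => d m y) (fun m => c m z) (.inl x) (.inl y) (.inl z)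
    rw [← h1]
    refine Finset.sum_subset (Finset.subset_univ _) ?_
    intro j _ hj
    by_cases h1 : j ∈ J1
    · rw [show w j z = 0 from hc j h1 z, mul_zero]
    · by_cases h2 : j ∈ J2
      · rw [show v j y = 0 from hd j h2 y, mul_zero, zero_mul]
      · by_cases h3 : j ∈ J3
        · rw [show u j x = 0 from he j h3 x, zero_mul, zero_mul]
        · exact absurd (by simp [h1, h2, h3]) hj

end Pool.Agent.H92.WR
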