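import Pool.Agent.H92.WR.Gadget
import Pool.Agent.H92.WR.Subst

set_option autoImplicit false

/-!
The lower bound for the Waring rank of the cubic forms.
-/

namespace Pool.Agent.H92.WR

open Module

/-- Index set of all variables of one cubic form. -/
abbrev SG (n A μ : ℕ) : Type := (PP n A ⊕ KK A) ⊕ Fin μ

variable {n A μ : ℕ}

/-- The cubic form, evaluated at elements of an algebra. -/
noncomputable def GG {R : Type} [CommRing R] [Algebra ℂ R] (Z : KK A → QQ n → ℂ)
    (l : Fin μ → PP n A → ℂ) (x : SG n A μ → R) : R :=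
  (∑ κ, x (.inl (.inr κ)) * ∑ q : QQ n, Z κ q •
    (x (.inl (.inl (.inl (.inl q.1)))) * x (.inl (.inl (.inr (.inl q.2)))))) +
  ∑ m, x (.inr m) * (∑ p, l m p • x (.inl (.inl p))) ^ 2

theorem GG_map {R R' : Type} [CommRing R] [Algebra ℂ R] [CommRing R'] [Algebra ℂ R']
    (φ : R →ₐ[ℂ] R') (Z : KK A → QQ n → ℂ)
    (l : Fin μ → PP n A → ℂ) (x : SG n A μ → R) :
    φ (GG Z l x) = GG Z l (fun s => φ (x s)) := by
  simp only [GG, map_add, map_sum, map_mul, map_pow, map_smul]

/-- A symmetric trilinear form with zero diagonal vanishes. -/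
theorem tri_zero {V : Type} [AddCommGroup V] (B : V → V → V → ℂ)
    (hadd : ∀ a a' b c, B (a + a') b c = B a b c + B a' b c)
    (hneg : ∀ a b c, B (-a) b c = - B a b c)
    (h12 : ∀ a b c, B a b c = B b a c) (h23 : ∀ a b c, B a b c = B a c b)
    (h0 : ∀ v, B v v v = 0) : ∀ a b c, B a b c = 0 := by
  have hadd2 : ∀ a b b' c, B a (b + b') c = B a b c + B a b' c := by
    intro a b b' c
    rw [h12, hadd, h12 b a c, h12 b' a c]
  have hadd3 : ∀ a b c c', B a b (c + c') = B a b c + B a b c' := by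
    intro a b c c'
    rw [h23, hadd2, h23 a c b, h23 a c' b]
  have hneg2 : ∀ a b c, B a (-b) c = - B a b c := by
    intro a b c
    rw [h12, hneg, h12 b a c]
  have hneg3 : ∀ a b c, B a b (-c) = - B a b c := by
    intro a b c
    rw [h23, hneg2, h23 a c b]
  have e1 : ∀ v w, B v v w + B v w w = 0 := by
    intro v w
    have h := h0 (v + w)
    simp only [hadd, hadd2, hadd3, h0] at h
    have h1 : B v w v = B v v w := h23 _ _ _
    have h2 : B w v v = B v v w := by rw [h12, h23]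
    have h3 : B w v w = B v w w := by rw [h12]
    have h4 : B w w v = B v w w := by rw [h23, h12]
    rw [h1, h2, h3, h4] at h
    linear_combination (1 / 3 : ℂ) * h
  have e2 : ∀ v w, B v v w = 0 := by
    intro v w
    have h := e1 v w
    have h' := e1 v (-w)
    simp only [hneg2, hneg3, neg_neg] at h'
    linear_combination (1 / 2 : ℂ) * h - (1 / 2 : ℂ) * h'
  intro a b c
  have h := e2 (a + b) c
  simp only [hadd, hadd2, e2] at h
  rw [h12 b a c] at h
  linear_combination (1 / 2 : ℂ) * h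

/-- The trilinear form of the cubic. -/
noncomputable def BB (Z : KK A → QQ n → ℂ) (l : Fin μ → PP n A → ℂ)
    (a b c : SG n A μ → ℂ) : ℂ :=
  (∑ κ, (a (.inl (.inr κ)) * ∑ p, ∑ p', (SS (Z κ) : PP n A → PP n A → ℂ) p p' *
      (b (.inl (.inl p)) * c (.inl (.inl p'))) +
    b (.inl (.inr κ)) * ∑ p, ∑ p', (SS (Z κ) : PP n A → PP n A → ℂ) p p' *
      (a (.inl (.inl p)) * c (.inl (.inl p'))) +
    c (.inl (.inr κ)) * ∑ p, ∑ p', (SS (Z κ) : PP n A → PP n A → ℂ) p p' *
      (a (.inl (.inl p)) * b (.inl (.inl p'))))) +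
  2 * ∑ m, (a (.inr m) * (∑ p, l m p * b (.inl (.inl p))) * (∑ p, l m p * c (.inl (.inl p))) +
    b (.inr m) * (∑ p, l m p * a (.inl (.inl p))) * (∑ p, l m p * c (.inl (.inl p))) +
    c (.inr m) * (∑ p, l m p * a (.inl (.inl p))) * (∑ p, l m p * b (.inl (.inl p))))

theorem SS_symm (z : QQ n → ℂ) (p p' : PP n A) :
    (SS z : PP n A → PP n A → ℂ) p p' = (SS z : PP n A → PP n A → ℂ) p' p := by
  rcases p with p | p <;> rcases p' with p' | p' <;> simp [SS, blk]

theorem SS_quad (z : QQ n → ℂ) (x : PP n A → ℂ) :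
    ∑ p, ∑ p', (SS z : PP n A → PP n A → ℂ) p p' * (x p * x p') =
      2 * ∑ q : QQ n, z q * (x (.inl (.inl q.1)) * x (.inr (.inl q.2))) := by
  have h1 : ∑ p : I2 n, ∑ p' : I2 n, z (p', p) * (x (.inr (.inl p)) * x (.inl (.inl p'))) =
      ∑ p : I2 n, ∑ p' : I2 n, z (p, p') * (x (.inl (.inl p)) * x (.inr (.inl p'))) := by
    rw [Finset.sum_comm]
    exact Finset.sum_congr rfl fun a _ => Finset.sum_congr rfl fun b _ => by ring
  simp only [SS, blk, incl, LinearMap.comp_apply, LinearMap.coe_mk, AddHom.coe_mk,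
    Fintype.sum_sum_type, zero_mul, Finset.sum_const_zero, add_zero, zero_add]
  have h2 : ∑ q : QQ n, z q * (x (.inl (.inl q.1)) * x (.inr (.inl q.2))) =
      ∑ p : I2 n, ∑ p' : I2 n, z (p, p') * (x (.inl (.inl p)) * x (.inr (.inl p'))) :=
    Fintype.sum_prod_type _
  rw [h1, h2]
  ring

theorem BB_diag (Z : KK A → QQ n → ℂ) (l : Fin μ → PP n A → ℂ) (v : SG n A μ → ℂ) :
    BB Z l v v v = 6 * GG Z l v := by
  simp only [BB, GG, smul_eq_mul]
  rw [mul_add, Finset.mul_sum, Finset.mul_sum, Finset.mul_sum]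
  congr 1
  · refine Finset.sum_congr rfl fun κ _ => ?_
    rw [SS_quad (Z κ) (fun p => v (.inl (.inl p)))]
    ring
  · refine Finset.sum_congr rfl fun m _ => ?_
    ring

theorem BB_add (Z : KK A → QQ n → ℂ) (l : Fin μ → PP n A → ℂ) (a a' b c : SG n A μ → ℂ) :
    BB Z l (a + a') b c = BB Z l a b c + BB Z l a' b c := by
  simp only [BB, Pi.add_apply, mul_add, add_mul, Finset.sum_add_distrib]
  ring

theorem BB_neg (Z : KK A → QQ n → ℂ) (l : Fin μ → PP n A → ℂ) (a b c : SG n A μ → ℂ) :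
    BB Z l (-a) b c = - BB Z l a b c := by
  simp only [BB, Pi.neg_apply, mul_neg, neg_mul, Finset.sum_neg_distrib, Finset.sum_add_distrib,
    mul_add]
  ring

theorem BB_12 (Z : KK A → QQ n → ℂ) (l : Fin μ → PP n A → ℂ) (a b c : SG n A μ → ℂ) :
    BB Z l a b c = BB Z l b a c := by
  have h : ∀ κ, ∑ p, ∑ p', (SS (Z κ) : PP n A → PP n A → ℂ) p p' *
      (a (.inl (.inl p)) * b (.inl (.inl p'))) = ∑ p, ∑ p', (SS (Z κ) : PP n A → PP n A → ℂ) p p' *
      (b (.inl (.inl p)) * a (.inl (.inl p'))) := by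
    intro κ
    rw [Finset.sum_comm]
    refine Finset.sum_congr rfl fun p _ => Finset.sum_congr rfl fun p' _ => ?_
    rw [SS_symm]
    ring
  simp only [BB]
  congr 1
  · refine Finset.sum_congr rfl fun κ _ => ?_
    rw [h κ]
    ring
  · congr 1
    refine Finset.sum_congr rfl fun m _ => ?_
    ring

theorem BB_23 (Z : KK A → QQ n → ℂ) (l : Fin μ → PP n A → ℂ) (a b c : SG n A μ → ℂ) :
    BB Z l a b c = BB Z l a c b := by
  have h : ∀ κ, ∑ p, ∑ p', (SS (Z κ) : PP n A → PP n A → ℂ) p p' *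
      (b (.inl (.inl p)) * c (.inl (.inl p'))) = ∑ p, ∑ p', (SS (Z κ) : PP n A → PP n A → ℂ) p p' *
      (c (.inl (.inl p)) * b (.inl (.inl p'))) := by
    intro κ
    rw [Finset.sum_comm]
    refine Finset.sum_congr rfl fun p _ => Finset.sum_congr rfl fun p' _ => ?_
    rw [SS_symm]
    ring
  simp only [BB]
  congr 1
  · refine Finset.sum_congr rfl fun κ _ => ?_
    rw [h κ]
    ring
  · congr 1
    refine Finset.sum_congr rfl fun m _ => ?_
    ring

open scoped Classical in
/-- Basis vectors. -/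
noncomputable def bv (s : SG n A μ) : SG n A μ → ℂ := fun t => if t = s then 1 else 0

theorem sum_bv (a : SG n A μ → ℂ) (s : SG n A μ) : ∑ t, a t * bv s t = a s := by
  classical
  simp [bv]

/-- From a Waring decomposition to the entries of the tensor. -/
theorem tensor_eq {r : ℕ} (Z : KK A → QQ n → ℂ) (l : Fin μ → PP n A → ℂ)
    (a : Fin r → SG n A μ → ℂ)
    (h : ∀ v : SG n A μ → ℂ, GG Z l v = ∑ j, (∑ s, a j s * v s) ^ 3) (x y z : SG n A μ) :
    ∑ j, a j x * a j y * a j z = (1 / 6 : ℂ) * BB Z l (bv x) (bv y) (bv z) := by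
  have key := tri_zero (fun u v w : SG n A μ → ℂ => BB Z l u v w -
      6 * ∑ j, (∑ s, a j s * u s) * (∑ s, a j s * v s) * (∑ s, a j s * w s))
    (by
      intro u u' v w
      simp only [BB_add, Pi.add_apply, mul_add, add_mul, Finset.sum_add_distrib]
      ring)
    (by
      intro u v w
      simp only [BB_neg, Pi.neg_apply, mul_neg, neg_mul, Finset.sum_neg_distrib]
      ring)
    (by
      intro u v w
      rw [BB_12]
      congr 2
      exact Finset.sum_congr rfl fun j _ => by ring)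
    (by
      intro u v w
      rw [BB_23]
      congr 2
      exact Finset.sum_congr rfl fun j _ => by ring)
    (by
      intro v
      rw [BB_diag, h]
      rw [← mul_sub, ← Finset.sum_sub_distrib]
      rw [Finset.sum_eq_zero fun j _ => by ring, mul_zero])
    (bv x) (bv y) (bv z)
  simp only [sum_bv] at key
  linear_combination (-1 / 6 : ℂ) * key

theorem BB_PPH (Z : KK A → QQ n → ℂ) (l : Fin μ → PP n A → ℂ) (p p' : PP n A) (m : Fin μ) :
    BB Z l (bv (.inl (.inl p))) (bv (.inl (.inl p'))) (bv (.inr m)) = 2 * (l m p * l m p') := by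
  simp [BB, bv]

theorem BB_HH (Z : KK A → QQ n → ℂ) (l : Fin μ → PP n A → ℂ) (s : SG n A μ) (m m' : Fin μ) :
    BB Z l (bv s) (bv (.inr m)) (bv (.inr m')) = 0 := by
  simp [BB, bv]

theorem BB_PKH (Z : KK A → QQ n → ℂ) (l : Fin μ → PP n A → ℂ) (p : PP n A) (κ : KK A)
    (m : Fin μ) :
    BB Z l (bv (.inl (.inl p))) (bv (.inl (.inr κ))) (bv (.inr m)) = 0 := by
  simp [BB, bv]

theorem BB_KKH (Z : KK A → QQ n → ℂ) (l : Fin μ → PP n A → ℂ) (κ κ' : KK A)
    (m : Fin μ) :
    BB Z l (bv (.inl (.inr κ'))) (bv (.inl (.inr κ))) (bv (.inr m)) = 0 := by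
  simp [BB, bv]

theorem BB_PKK (Z : KK A → QQ n → ℂ) (l : Fin μ → PP n A → ℂ) (p : PP n A) (κ κ' : KK A) :
    BB Z l (bv (.inl (.inl p))) (bv (.inl (.inr κ))) (bv (.inl (.inr κ'))) = 0 := by
  simp [BB, bv]

theorem BB_PPK (Z : KK A → QQ n → ℂ) (l : Fin μ → PP n A → ℂ) (p p' : PP n A) (κ : KK A) :
    BB Z l (bv (.inl (.inl p))) (bv (.inl (.inl p'))) (bv (.inl (.inr κ))) =
      (SS (Z κ) : PP n A → PP n A → ℂ) p p' := by
  simp [BB, bv]

theorem exists_coeffs {σ : Type} [Fintype σ] (L : MvPolynomial σ ℂ) (hL : L.IsHomogeneous 1) :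
    ∃ a : σ → ℂ, ∀ v : σ → ℂ, MvPolynomial.aeval v L = ∑ s, a s * v s := by
  have h1 : L ∈ MvPolynomial.homogeneousSubmodule σ ℂ 1 := hL
  rw [MvPolynomial.homogeneousSubmodule_one_eq_span_X, Submodule.mem_span_range_iff_exists_fun] at h1
  obtain ⟨a, rfl⟩ := h1
  refine ⟨a, fun v => ?_⟩
  simp

theorem lower (W Z : KK A → QQ n → ℂ) (l : Fin μ → PP n A → ℂ)
    (hl : LinearIndependent ℂ (fun m => sq (l m)))
    (hsp : Submodule.span ℂ (Set.range fun m => sq (l m)) = MM W)
    (D : (KK A → QQ n → ℂ) →ₗ[ℂ] Derivation ℚ ℂ ℂ) (hDZ : ∀ δ κ q, D δ (Z κ q) = δ κ q)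
    (hDW : ∀ δ κ q, D δ (W κ q) = 0)
    (r : ℕ) (L : Fin r → MvPolynomial (SG n A μ) ℂ) (hL : ∀ j, (L j).IsHomogeneous 1)
    (hG : GG Z l MvPolynomial.X = ∑ j, L j ^ 3) (D0 θ : ℕ) :
    ∃ t r' i : ℕ, t + 3 * μ = r ∧ θ * r' ≤ t ∧ D0 * i ≤ t ∧
      2 * (Fintype.card (KK A) * Fintype.card (QQ n)) ≤
        6 * (t * Fintype.card (PP n A)) + 2 * (i * t) +
        Fintype.card (KK A) * t + Fintype.card (KK A) * (D0 + θ * D0) +
        2 * (Fintype.card (KK A) * Fintype.card (KK A)) +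
        Fintype.card (KK A) * (Fintype.card (PP n A) * r') := by
  classical
  choose a ha using fun j => exists_coeffs (L j) (hL j)
  have h : ∀ v : SG n A μ → ℂ, GG Z l v = ∑ j, (∑ s, a j s * v s) ^ 3 := by
    intro v
    have h1 := congrArg (MvPolynomial.aeval v) hG
    rw [GG_map] at h1
    simp only [MvPolynomial.aeval_X, map_sum, map_pow, ha] at h1
    exact h1
  have hT := tensor_eq Z l a h
  obtain ⟨J', u, v, w, c, d, e, hcard, huvw⟩ := subst a
    (fun x y z => (1 / 6 : ℂ) * BB Z l (bv x) (bv y) (bv z)) hT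
    (by
      intro φ hφ
      have h1 : ∑ m, φ m • sq (l m) = 0 := by
        ext p p'
        have h2 := hφ (.inl p) (.inl p')
        simp only [BB_PPH] at h2
        simp only [Finset.sum_apply, Pi.smul_apply, smul_eq_mul, sq, Pi.zero_apply]
        have h3 : ∑ m, φ m * (l m p * l m p') =
            3 * ∑ m, φ m * (1 / 6 * (2 * (l m p * l m p'))) := by
          rw [Finset.mul_sum]
          exact Finset.sum_congr rfl fun m _ => by ring
        rw [h3, h2, mul_zero]
      ext m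
      exact Fintype.linearIndependent_iff.1 hl φ h1 m)
    (by
      intro x m m'
      rw [BB_HH, mul_zero])
  have hPK : ∀ (p : PP n A) (κ : KK A) m,
      BB Z l (bv (.inl (.inr κ))) (bv (.inl (.inl p))) (bv (.inr m)) = 0 := by
    intro p κ m
    rw [BB_12, BB_PKH]
  obtain ⟨r', i, h1, h2, h3⟩ := core D (SS : (QQ n → ℂ) →ₗ[ℂ] (PP n A → PP n A → ℂ)) SS_deriv
    (MM W) (fun δ => MM_stable W (D δ) (hDW δ)) (Fintype.card (KK A)) (finrank_comap_SS W)
    Z hDZ (J := J') (fun j p => u j (.inl p)) (fun j p => v j (.inl p)) (fun j p => w j (.inl p))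
    (fun κ j => 6 * w j (.inr κ)) (fun κ j => 6 * v j (.inr κ))
    (by
      intro κ
      have h1 : (fun p p' => ∑ j : J', (6 * w j (.inr κ)) * u j (.inl p) * v j (.inl p')) -
          SS (Z κ) = ∑ m, (2 * c m (.inr κ)) • sq (l m) := by
        ext p p'
        have h2 := huvw (.inl p) (.inl p') (.inr κ)
        simp only [BB_PPK, BB_PKH, BB_PPH, mul_zero, Finset.sum_const_zero, add_zero] at h2
        simp only [Pi.sub_apply, Finset.sum_apply, Pi.smul_apply, smul_eq_mul, sq]
        have h3 : ∑ j : J', (6 * w j (.inr κ)) * u j (.inl p) * v j (.inl p') =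
            6 * ∑ j ∈ J', u j (.inl p) * v j (.inl p') * w j (.inr κ) := by
          rw [Finset.mul_sum, ← Finset.sum_coe_sort J']
          exact Finset.sum_congr rfl fun j _ => by ring
        rw [h3, h2, mul_add, Finset.mul_sum]
        have h4 : ∑ m, (2 * c m (.inr κ)) * (l m p * l m p') =
            ∑ m, 6 * (c m (.inr κ) * (1 / 6 * (2 * (l m p * l m p')))) :=
          Finset.sum_congr rfl fun m _ => by ring
        rw [h4]
        ring
      rw [h1, ← hsp]
      exact Submodule.sum_mem _ fun m _ => Submodule.smul_mem _ _ (Submodule.subset_span ⟨m, rfl⟩))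
    (by
      intro κ
      have h1 : (fun p p' => ∑ j : J', (6 * v j (.inr κ)) * u j (.inl p) * w j (.inl p')) -
          SS (Z κ) = ∑ m, (2 * d m (.inr κ)) • sq (l m) := by
        ext p p'
        have h2 := huvw (.inl p) (.inr κ) (.inl p')
        rw [BB_23] at h2
        simp only [BB_PPK, BB_PKH, BB_PPH, hPK, mul_zero, Finset.sum_const_zero, add_zero] at h2
        simp only [Pi.sub_apply, Finset.sum_apply, Pi.smul_apply, smul_eq_mul, sq]
        have h3 : ∑ j : J', (6 * v j (.inr κ)) * u j (.inl p) * w j (.inl p') =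
            6 * ∑ j ∈ J', u j (.inl p) * v j (.inr κ) * w j (.inl p') := by
          rw [Finset.mul_sum, ← Finset.sum_coe_sort J']
          exact Finset.sum_congr rfl fun j _ => by ring
        rw [h3, h2, mul_add, Finset.mul_sum]
        have h4 : ∑ m, (2 * d m (.inr κ)) * (l m p * l m p') =
            ∑ m, 6 * (d m (.inr κ) * (1 / 6 * (2 * (l m p * l m p')))) :=
          Finset.sum_congr rfl fun m _ => by ring
        rw [h4]
        ring
      rw [h1, ← hsp]
      exact Submodule.sum_mem _ fun m _ => Submodule.smul_mem _ _ (Submodule.subset_span ⟨m, rfl⟩))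
    (by
      intro κ κ' p
      have h2 := huvw (.inl p) (.inr κ) (.inr κ')
      simp only [BB_PKK, BB_PKH, BB_KKH, mul_zero, Finset.sum_const_zero, add_zero] at h2
      have h3 : ∑ j : J', u j (.inl p) * (6 * v j (.inr κ)) * (6 * w j (.inr κ')) =
          36 * ∑ j ∈ J', u j (.inl p) * v j (.inr κ) * w j (.inr κ') := by
        rw [Finset.mul_sum, ← Finset.sum_coe_sort J']
        exact Finset.sum_congr rfl fun j _ => by ring
      rw [h3, h2, mul_zero])
    D0 θ
  rw [Fintype.card_coe] at h1 h2 h3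
  rw [Fintype.card_fin] at hcard
  exact ⟨J'.card, r', i, hcard, h1, h2, h3⟩

end Pool.Agent.H92.WR
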