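import Pool.Agent.H92.WR.Lower

set_option autoImplicit false

/-!
The upper bound for the sum of the two cubic forms.
-/

namespace Pool.Agent.H92.WR

open Module

variable {R : Type} [CommRing R] [Algebra ℂ R]

/-- `F` is a sum of `r` cubes of elements of `Lin`. -/
def Wr (Lin : Submodule ℂ R) (r : ℕ) (F : R) : Prop :=
  ∃ l : List R, l.length = r ∧ (∀ x ∈ l, x ∈ Lin) ∧ F = (l.map (fun x => x ^ 3)).sum

variable {Lin : Submodule ℂ R}

theorem Wr.zero : Wr Lin 0 (0 : R) := ⟨[], rfl, by simp, by simp⟩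

theorem Wr.add {r s : ℕ} {F G : R} (h : Wr Lin r F) (h' : Wr Lin s G) : Wr Lin (r + s) (F + G) := by
  obtain ⟨l, h1, h2, h3⟩ := h
  obtain ⟨l', h1', h2', h3'⟩ := h'
  refine ⟨l ++ l', by simp [h1, h1'], ?_, by simp [h3, h3']⟩
  intro x hx
  rcases List.mem_append.1 hx with hx | hx
  · exact h2 x hx
  · exact h2' x hx

theorem Wr.sum {ι : Type} {r : ℕ} (s : Finset ι) (F : ι → R) (h : ∀ i ∈ s, Wr Lin r (F i)) :
    Wr Lin (s.card * r) (∑ i ∈ s, F i) := by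
  classical
  induction s using Finset.induction_on with
  | empty => simpa using Wr.zero
  | insert a s ha ih =>
    rw [Finset.sum_insert ha, Finset.card_insert_of_notMem ha, add_mul, one_mul, add_comm]
    rw [add_comm (F a)]
    rw [add_comm r]
    exact Wr.add (ih fun i hi => h i (Finset.mem_insert_of_mem hi))
      (h a (Finset.mem_insert_self _ _))

theorem exists_cube_root (c : ℂ) : ∃ d : ℂ, d ^ 3 = c :=
  IsAlgClosed.exists_pow_nat_eq c (by norm_num)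

theorem Wr.smul {r : ℕ} {F : R} (h : Wr Lin r F) (c : ℂ) : Wr Lin r (c • F) := by
  obtain ⟨l, h1, h2, rfl⟩ := h
  obtain ⟨d, rfl⟩ := exists_cube_root c
  refine ⟨l.map (fun x => d • x), by simp [h1], ?_, ?_⟩
  · intro x hx
    obtain ⟨y, hy, rfl⟩ := List.mem_map.1 hx
    exact Lin.smul_mem _ (h2 y hy)
  · rw [List.map_map, List.smul_sum, List.map_map]
    congr 1
    apply List.map_congr_left
    intro x _
    simp only [Function.comp_apply, smul_pow]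

theorem Wr.neg {r : ℕ} {F : R} (h : Wr Lin r F) : Wr Lin r (-F) := by
  have := h.smul (-1)
  rwa [neg_one_smul] at this

theorem Wr.cube {x : R} (hx : x ∈ Lin) : Wr Lin 1 (x ^ 3) :=
  ⟨[x], rfl, by simpa using hx, by simp⟩

theorem Wr.sq_mul {x z : R} (hx : x ∈ Lin) (hz : z ∈ Lin) : Wr Lin 3 (x ^ 2 * z) := by
  have h1 := (Wr.cube (Lin.add_mem hx hz)).smul (1 / 6)
  have h2 := (Wr.cube (Lin.sub_mem hx hz)).smul (-1 / 6)
  have h3 := (Wr.cube hz).smul (-1 / 3)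
  have h4 := (h1.add h2).add h3
  have h5 : x ^ 2 * z = (1 / 6 : ℂ) • (x + z) ^ 3 + (-1 / 6 : ℂ) • (x - z) ^ 3 +
      (-1 / 3 : ℂ) • z ^ 3 := by
    have e1 : (x + z) ^ 3 = x ^ 3 + (3 : ℂ) • (x ^ 2 * z) + (3 : ℂ) • (x * z ^ 2) + z ^ 3 := by
      simp only [Algebra.smul_def, map_ofNat]; ring
    have e2 : (x - z) ^ 3 = x ^ 3 - (3 : ℂ) • (x ^ 2 * z) + (3 : ℂ) • (x * z ^ 2) - z ^ 3 := by
      simp only [Algebra.smul_def, map_ofNat]; ring
    rw [e1, e2]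
    module
  rw [h5]
  exact h4

theorem Wr.mul3 {x y z : R} (hx : x ∈ Lin) (hy : y ∈ Lin) (hz : z ∈ Lin) :
    Wr Lin 4 (x * y * z) := by
  have h1 := (Wr.cube (Lin.add_mem (Lin.add_mem hx hy) hz)).smul (1 / 24)
  have h2 := (Wr.cube (Lin.sub_mem (Lin.add_mem hx hy) hz)).smul (-1 / 24)
  have h3 := (Wr.cube (Lin.add_mem (Lin.sub_mem hx hy) hz)).smul (-1 / 24)
  have h4 := (Wr.cube (Lin.sub_mem (Lin.sub_mem hx hy) hz)).smul (1 / 24)
  have h5 := ((h1.add h2).add h3).add h4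
  have h6 : x * y * z = (1 / 24 : ℂ) • (x + y + z) ^ 3 + (-1 / 24 : ℂ) • (x + y - z) ^ 3 +
      (-1 / 24 : ℂ) • (x - y + z) ^ 3 + (1 / 24 : ℂ) • (x - y - z) ^ 3 := by
    have e : (x + y + z) ^ 3 - (x + y - z) ^ 3 - (x - y + z) ^ 3 + (x - y - z) ^ 3 =
        (24 : ℂ) • (x * y * z) := by
      simp only [Algebra.smul_def, map_ofNat]; ring
    have e' : (1 / 24 : ℂ) • (x + y + z) ^ 3 + (-1 / 24 : ℂ) • (x + y - z) ^ 3 +
      (-1 / 24 : ℂ) • (x - y + z) ^ 3 + (1 / 24 : ℂ) • (x - y - z) ^ 3 =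
      (1 / 24 : ℂ) • ((x + y + z) ^ 3 - (x + y - z) ^ 3 - (x - y + z) ^ 3 + (x - y - z) ^ 3) := by
      module
    rw [e', e, smul_smul]
    norm_num
  rw [h6]
  exact h5

theorem Wr.fiber_mul {κ ι : Type} [Fintype κ] [Fintype ι] [DecidableEq ι] (π : κ → ι)
    (α β : ι → R) (ζ : κ → R) (hα : ∀ i, α i ∈ Lin) (hβ : ∀ i, β i ∈ Lin) (hζ : ∀ q, ζ q ∈ Lin) :
    Wr Lin (Fintype.card ι * 4) (∑ q, α (π q) * β (π q) * ζ q) := by
  have h1 : ∑ q, α (π q) * β (π q) * ζ q =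
      ∑ i, α i * β i * ∑ q with π q = i, ζ q := by
    rw [← Finset.sum_fiberwise (s := Finset.univ) (g := π)]
    refine Finset.sum_congr rfl fun i _ => ?_
    rw [Finset.mul_sum]
    refine Finset.sum_congr rfl fun q hq => ?_
    rw [(Finset.mem_filter.1 hq).2]
  rw [h1]
  exact Wr.sum Finset.univ _ fun i _ => Wr.mul3 (hα i) (hβ i) (Lin.sum_mem fun q _ => hζ q)

theorem Wr.fiber_sq {κ ι : Type} [Fintype κ] [Fintype ι] [DecidableEq ι] (π : κ → ι)
    (α : ι → R) (ζ : κ → R) (hα : ∀ i, α i ∈ Lin) (hζ : ∀ q, ζ q ∈ Lin) :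
    Wr Lin (Fintype.card ι * 3) (∑ q, α (π q) ^ 2 * ζ q) := by
  have h1 : ∑ q, α (π q) ^ 2 * ζ q =
      ∑ i, α i ^ 2 * ∑ q with π q = i, ζ q := by
    rw [← Finset.sum_fiberwise (s := Finset.univ) (g := π)]
    refine Finset.sum_congr rfl fun i _ => ?_
    rw [Finset.mul_sum]
    refine Finset.sum_congr rfl fun q hq => ?_
    rw [(Finset.mem_filter.1 hq).2]
  rw [h1]
  exact Wr.sum Finset.univ _ fun i _ => Wr.sq_mul (hα i) (Lin.sum_mem fun q _ => hζ q)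

variable {n A μ : ℕ}

/-- Interchange the middle coordinates. -/
def tau (q : QQ n) : QQ n := ((q.1.1, q.2.1), (q.1.2, q.2.2))

theorem tau_tau (q : QQ n) : tau (tau q) = q := rfl

/-- The interchange as an equivalence. -/
def tauE : QQ n ≃ QQ n := ⟨tau, tau, tau_tau, tau_tau⟩

theorem SS_quadR (z : QQ n → ℂ) (x : PP n A → R) :
    ∑ p, ∑ p', (SS z : PP n A → PP n A → ℂ) p p' • (x p * x p') =
      (2 : ℂ) • ∑ q : QQ n, z q • (x (.inl (.inl q.1)) * x (.inr (.inl q.2))) := by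
  have h1 : ∑ p : I2 n, ∑ p' : I2 n, z (p', p) • (x (.inr (.inl p)) * x (.inl (.inl p'))) =
      ∑ p : I2 n, ∑ p' : I2 n, z (p, p') • (x (.inl (.inl p)) * x (.inr (.inl p'))) := by
    rw [Finset.sum_comm]
    exact Finset.sum_congr rfl fun a _ => Finset.sum_congr rfl fun b _ => by
      rw [mul_comm (x (.inr (.inl b)))]
  have h2 : ∑ q : QQ n, z q • (x (.inl (.inl q.1)) * x (.inr (.inl q.2))) =
      ∑ p : I2 n, ∑ p' : I2 n, z (p, p') • (x (.inl (.inl p)) * x (.inr (.inl p'))) :=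
    Fintype.sum_prod_type _
  simp only [SS, blk, incl, LinearMap.comp_apply, LinearMap.coe_mk, AddHom.coe_mk,
    Fintype.sum_sum_type, zero_smul, Finset.sum_const_zero, add_zero, zero_add]
  rw [h1, h2]
  module

theorem sq_quadR {P : Type} [Fintype P] (l : P → ℂ) (x : P → R) :
    ∑ p, ∑ p', sq l p p' • (x p * x p') = (∑ p, l p • x p) ^ 2 := by
  rw [pow_two, Finset.sum_mul_sum]
  refine Finset.sum_congr rfl fun p _ => Finset.sum_congr rfl fun p' _ => ?_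
  rw [sq, smul_mul_smul_comm]

/-- The quadric is a combination of the squares. -/
theorem quad_eq (z : QQ n → ℂ) (l : Fin μ → PP n A → ℂ)
    (hz : (SS z : PP n A → PP n A → ℂ) ∈ Submodule.span ℂ (Set.range fun m => sq (l m))) :
    ∃ c : Fin μ → ℂ, ∀ x : PP n A → R,
      ∑ q : QQ n, z q • (x (.inl (.inl q.1)) * x (.inr (.inl q.2))) =
        ∑ m, c m • (∑ p, l m p • x p) ^ 2 := by
  obtain ⟨c, hc⟩ := (Submodule.mem_span_range_iff_exists_fun ℂ).1 hz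
  refine ⟨fun m => (1 / 2 : ℂ) * c m, fun x => ?_⟩
  have h1 := SS_quadR z x
  rw [← hc] at h1
  simp only [Finset.sum_apply, Pi.smul_apply, smul_eq_mul, Finset.sum_smul] at h1
  have h2 : ∑ p, ∑ p', ∑ m, (c m * sq (l m) p p') • (x p * x p') =
      ∑ m, c m • (∑ p, l m p • x p) ^ 2 := by
    have h3 : ∀ m, c m • (∑ p, l m p • x p) ^ 2 =
        ∑ p, ∑ p', (c m * sq (l m) p p') • (x p * x p') := by
      intro m
      rw [← sq_quadR, Finset.smul_sum]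
      refine Finset.sum_congr rfl fun p _ => ?_
      rw [Finset.smul_sum]
      exact Finset.sum_congr rfl fun p' _ => by rw [smul_smul]
    rw [Finset.sum_congr rfl fun m _ => h3 m]
    rw [Finset.sum_comm (s := (Finset.univ : Finset (Fin μ)))]
    exact Finset.sum_congr rfl fun p _ => Finset.sum_comm
  rw [h2] at h1
  have h4 : ∑ q : QQ n, z q • (x (.inl (.inl q.1)) * x (.inr (.inl q.2))) =
      (1 / 2 : ℂ) • ((2 : ℂ) • ∑ q : QQ n, z q • (x (.inl (.inl q.1)) * x (.inr (.inl q.2)))) := by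
    rw [smul_smul]; norm_num
  rw [h4, ← h1, Finset.smul_sum]
  exact Finset.sum_congr rfl fun m _ => by rw [smul_smul]


theorem upper (Z W : KK A → QQ n → ℂ) {μ1 μ2 : ℕ} (l1 : Fin μ1 → PP n A → ℂ)
    (l2 : Fin μ2 → PP n A → ℂ)
    (h1 : ∀ κ, (SS (W κ) : PP n A → PP n A → ℂ) ∈
      Submodule.span ℂ (Set.range fun m => sq (l1 m)))
    (h2 : ∀ κ, (SS (fun q => Z κ (tau q)) : PP n A → PP n A → ℂ) ∈
      Submodule.span ℂ (Set.range fun m => sq (l2 m)))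
    (x1 : SG n A μ1 → R) (x2 : SG n A μ2 → R) (hx1 : ∀ s, x1 s ∈ Lin) (hx2 : ∀ s, x2 s ∈ Lin) :
    Wr Lin (3 * n ^ 4 + 16 * n ^ 3 + 12 * n ^ 2 + 3 * μ1 + 3 * μ2)
      (GG Z l1 x1 + GG (fun κ q => W κ (tau q)) l2 x2) := by
  choose c1 hc1 using fun κ => quad_eq (R := R) (W κ) l1 (h1 κ)
  choose c2 hc2 using fun κ => quad_eq (R := R) (fun q => Z κ (tau q)) l2 (h2 κ)
  set x : I2 n → R := fun p => x1 (.inl (.inl (.inl (.inl p)))) with hx
  set y : I2 n → R := fun p => x1 (.inl (.inl (.inr (.inl p)))) with hy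
  set u : I2 n → R := fun p => x2 (.inl (.inl (.inl (.inl p)))) with hu
  set v : I2 n → R := fun p => x2 (.inl (.inl (.inr (.inl p)))) with hv
  set z : KK A → R := fun κ => x1 (.inl (.inr κ)) with hz
  set w : KK A → R := fun κ => x2 (.inl (.inr κ)) with hw
  set LL1 : Fin μ1 → R := fun m => ∑ p, l1 m p • x1 (.inl (.inl p)) with hLL1
  set LL2 : Fin μ2 → R := fun m => ∑ p, l2 m p • x2 (.inl (.inl p)) with hLL2
  set zz : QQ n → R := fun q => ∑ κ, Z κ q • z κ with hzz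
  set ww : QQ n → R := fun q => ∑ κ, W κ q • w κ with hww
  have hF1 : ∑ κ, z κ * ∑ q : QQ n, Z κ q • (x q.1 * y q.2) = ∑ q : QQ n, x q.1 * y q.2 * zz q := by
    simp only [hzz, Finset.mul_sum]
    rw [Finset.sum_comm]
    exact Finset.sum_congr rfl fun q _ => Finset.sum_congr rfl fun κ _ => by
      rw [mul_smul_comm, mul_smul_comm, mul_comm]
  have hQ1 : ∑ κ, w κ * ∑ q : QQ n, W κ q • (x q.1 * y q.2) = ∑ q : QQ n, x q.1 * y q.2 * ww q := by
    simp only [hww, Finset.mul_sum]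
    rw [Finset.sum_comm]
    exact Finset.sum_congr rfl fun q _ => Finset.sum_congr rfl fun κ _ => by
      rw [mul_smul_comm, mul_smul_comm, mul_comm]
  have hF2 : ∑ κ, w κ * ∑ q : QQ n, W κ (tau q) • (u q.1 * v q.2) =
      ∑ q : QQ n, u (tau q).1 * v (tau q).2 * ww q := by
    have e1 : ∑ q : QQ n, u (tau q).1 * v (tau q).2 * ww q =
        ∑ q : QQ n, u q.1 * v q.2 * ww (tau q) :=
      (tauE (n := n)).sum_comp fun q => u q.1 * v q.2 * ww (tau q)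
    rw [e1]
    simp only [hww, Finset.mul_sum]
    rw [Finset.sum_comm]
    exact Finset.sum_congr rfl fun q _ => Finset.sum_congr rfl fun κ _ => by
      rw [mul_smul_comm, mul_smul_comm, mul_comm]
  have hQ2 : ∑ κ, z κ * ∑ q : QQ n, Z κ (tau q) • (u q.1 * v q.2) =
      ∑ q : QQ n, u (tau q).1 * v (tau q).2 * zz q := by
    have e1 : ∑ q : QQ n, u (tau q).1 * v (tau q).2 * zz q =
        ∑ q : QQ n, u q.1 * v q.2 * zz (tau q) :=
      (tauE (n := n)).sum_comp fun q => u q.1 * v q.2 * zz (tau q)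
    rw [e1]
    simp only [hzz, Finset.mul_sum]
    rw [Finset.sum_comm]
    exact Finset.sum_congr rfl fun q _ => Finset.sum_congr rfl fun κ _ => by
      rw [mul_smul_comm, mul_smul_comm, mul_comm]
  have hQ1' : ∑ q : QQ n, x q.1 * y q.2 * ww q = ∑ m, LL1 m ^ 2 * ∑ κ, c1 κ m • w κ := by
    rw [← hQ1]
    have e1 : ∀ κ, ∑ q : QQ n, W κ q • (x q.1 * y q.2) = ∑ m, c1 κ m • LL1 m ^ 2 := fun κ =>
      hc1 κ fun p => x1 (.inl (.inl p))
    simp only [e1, Finset.mul_sum]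
    rw [Finset.sum_comm]
    exact Finset.sum_congr rfl fun q _ => Finset.sum_congr rfl fun κ _ => by
      rw [mul_smul_comm, mul_smul_comm, mul_comm]
  have hQ2' : ∑ q : QQ n, u (tau q).1 * v (tau q).2 * zz q =
      ∑ m, LL2 m ^ 2 * ∑ κ, c2 κ m • z κ := by
    rw [← hQ2]
    have e1 : ∀ κ, ∑ q : QQ n, Z κ (tau q) • (u q.1 * v q.2) = ∑ m, c2 κ m • LL2 m ^ 2 := fun κ =>
      hc2 κ fun p => x2 (.inl (.inl p))
    simp only [e1, Finset.mul_sum]
    rw [Finset.sum_comm]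
    exact Finset.sum_congr rfl fun q _ => Finset.sum_congr rfl fun κ _ => by
      rw [mul_smul_comm, mul_smul_comm, mul_comm]
  have hG1 : GG Z l1 x1 = ∑ q : QQ n, x q.1 * y q.2 * zz q + ∑ m, x1 (.inr m) * LL1 m ^ 2 := by
    rw [← hF1]; rfl
  have hG2 : GG (fun κ q => W κ (tau q)) l2 x2 =
      ∑ q : QQ n, u (tau q).1 * v (tau q).2 * ww q + ∑ m, x2 (.inr m) * LL2 m ^ 2 := by
    rw [← hF2]; rfl
  -- membership
  have mx : ∀ p, x p ∈ Lin := fun p => hx1 _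
  have my : ∀ p, y p ∈ Lin := fun p => hx1 _
  have mu : ∀ p, u p ∈ Lin := fun p => hx2 _
  have mv : ∀ p, v p ∈ Lin := fun p => hx2 _
  have mzz : ∀ q, zz q ∈ Lin := fun q => Lin.sum_mem fun κ _ => Lin.smul_mem _ (hx1 _)
  have mww : ∀ q, ww q ∈ Lin := fun q => Lin.sum_mem fun κ _ => Lin.smul_mem _ (hx2 _)
  have mLL1 : ∀ m, LL1 m ∈ Lin := fun q => Lin.sum_mem fun κ _ => Lin.smul_mem _ (hx1 _)
  have mLL2 : ∀ m, LL2 m ∈ Lin := fun q => Lin.sum_mem fun κ _ => Lin.smul_mem _ (hx2 _)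
  have mζ : ∀ q, zz q + ww q ∈ Lin := fun q => Lin.add_mem (mzz q) (mww q)
  -- the pieces
  have P1 : Wr Lin (Fintype.card (QQ n) * 3)
      (∑ q : QQ n, (x q.1 + y q.2 + u (tau q).1 + v (tau q).2) ^ 2 *
        ((1 / 2 : ℂ) • (zz q + ww q))) :=
    Wr.sum Finset.univ _ fun q _ => Wr.sq_mul
      (Lin.add_mem (Lin.add_mem (Lin.add_mem (mx _) (my _)) (mu _)) (mv _))
      (Lin.smul_mem _ (mζ q))
  have P2 : Wr Lin (Fintype.card (Fin n × Fin n × Fin n) * 4)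
      (∑ q : QQ n, x q.1 * u (tau q).1 * (zz q + ww q)) :=
    Wr.fiber_mul (fun q : QQ n => (q.1.1, q.1.2, q.2.1)) (fun i => x (i.1, i.2.1))
      (fun i => u (i.1, i.2.2)) _ (fun _ => mx _) (fun _ => mu _) mζ
  have P3 : Wr Lin (Fintype.card (Fin n × Fin n × Fin n) * 4)
      (∑ q : QQ n, x q.1 * v (tau q).2 * (zz q + ww q)) :=
    Wr.fiber_mul (fun q : QQ n => (q.1.1, q.1.2, q.2.2)) (fun i => x (i.1, i.2.1))
      (fun i => v (i.2.1, i.2.2)) _ (fun _ => mx _) (fun _ => mv _) mζ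
  have P4 : Wr Lin (Fintype.card (Fin n × Fin n × Fin n) * 4)
      (∑ q : QQ n, y q.2 * u (tau q).1 * (zz q + ww q)) :=
    Wr.fiber_mul (fun q : QQ n => (q.2.1, q.2.2, q.1.1)) (fun i => y (i.1, i.2.1))
      (fun i => u (i.2.2, i.1)) _ (fun _ => my _) (fun _ => mu _) mζ
  have P5 : Wr Lin (Fintype.card (Fin n × Fin n × Fin n) * 4)
      (∑ q : QQ n, y q.2 * v (tau q).2 * (zz q + ww q)) :=
    Wr.fiber_mul (fun q : QQ n => (q.2.1, q.2.2, q.1.2)) (fun i => y (i.1, i.2.1))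
      (fun i => v (i.2.2, i.2.1)) _ (fun _ => my _) (fun _ => mv _) mζ
  have P6 : Wr Lin (Fintype.card (I2 n) * 3) (∑ q : QQ n, x q.1 ^ 2 * (zz q + ww q)) :=
    Wr.fiber_sq (fun q : QQ n => q.1) x _ mx mζ
  have P7 : Wr Lin (Fintype.card (I2 n) * 3) (∑ q : QQ n, y q.2 ^ 2 * (zz q + ww q)) :=
    Wr.fiber_sq (fun q : QQ n => q.2) y _ my mζ
  have P8 : Wr Lin (Fintype.card (I2 n) * 3) (∑ q : QQ n, u (tau q).1 ^ 2 * (zz q + ww q)) :=
    Wr.fiber_sq (fun q : QQ n => (tau q).1) u _ mu mζ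
  have P9 : Wr Lin (Fintype.card (I2 n) * 3) (∑ q : QQ n, v (tau q).2 ^ 2 * (zz q + ww q)) :=
    Wr.fiber_sq (fun q : QQ n => (tau q).2) v _ mv mζ
  have P10 : Wr Lin (Fintype.card (Fin μ1) * 3)
      (∑ m, LL1 m ^ 2 * (x1 (.inr m) - ∑ κ, c1 κ m • w κ)) :=
    Wr.sum Finset.univ _ fun m _ => Wr.sq_mul (mLL1 m)
      (Lin.sub_mem (hx1 _) (Lin.sum_mem fun κ _ => Lin.smul_mem _ (hx2 _)))
  have P11 : Wr Lin (Fintype.card (Fin μ2) * 3)
      (∑ m, LL2 m ^ 2 * (x2 (.inr m) - ∑ κ, c2 κ m • z κ)) :=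
    Wr.sum Finset.univ _ fun m _ => Wr.sq_mul (mLL2 m)
      (Lin.sub_mem (hx2 _) (Lin.sum_mem fun κ _ => Lin.smul_mem _ (hx1 _)))
  have total := (((((((((P1.add P2.neg).add P3.neg).add P4.neg).add P5.neg).add
    (P6.smul (-1 / 2))).add (P7.smul (-1 / 2))).add (P8.smul (-1 / 2))).add
    (P9.smul (-1 / 2))).add P10).add P11
  have hcount : Fintype.card (QQ n) * 3 + Fintype.card (Fin n × Fin n × Fin n) * 4 +
      Fintype.card (Fin n × Fin n × Fin n) * 4 + Fintype.card (Fin n × Fin n × Fin n) * 4 +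
      Fintype.card (Fin n × Fin n × Fin n) * 4 + Fintype.card (I2 n) * 3 +
      Fintype.card (I2 n) * 3 + Fintype.card (I2 n) * 3 + Fintype.card (I2 n) * 3 +
      Fintype.card (Fin μ1) * 3 + Fintype.card (Fin μ2) * 3 =
      3 * n ^ 4 + 16 * n ^ 3 + 12 * n ^ 2 + 3 * μ1 + 3 * μ2 := by
    simp only [Fintype.card_prod, Fintype.card_fin]
    ring
  rw [hcount] at total
  convert total using 1
  rw [hG1, hG2]
  have hpt : ∀ q : QQ n, (x q.1 + y q.2 + u (tau q).1 + v (tau q).2) ^ 2 *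
        ((1 / 2 : ℂ) • (zz q + ww q)) =
      x q.1 * y q.2 * zz q + x q.1 * y q.2 * ww q + u (tau q).1 * v (tau q).2 * zz q +
      u (tau q).1 * v (tau q).2 * ww q + x q.1 * u (tau q).1 * (zz q + ww q) +
      x q.1 * v (tau q).2 * (zz q + ww q) + y q.2 * u (tau q).1 * (zz q + ww q) +
      y q.2 * v (tau q).2 * (zz q + ww q) + (1 / 2 : ℂ) • (x q.1 ^ 2 * (zz q + ww q)) +
      (1 / 2 : ℂ) • (y q.2 ^ 2 * (zz q + ww q)) + (1 / 2 : ℂ) • (u (tau q).1 ^ 2 * (zz q + ww q)) +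
      (1 / 2 : ℂ) • (v (tau q).2 ^ 2 * (zz q + ww q)) := by
    intro q
    have hh : (2 : R) * algebraMap ℂ R (1 / 2) = 1 := by
      rw [← map_ofNat (algebraMap ℂ R) 2, ← map_mul]
      norm_num
    simp only [Algebra.smul_def]
    linear_combination (x q.1 * y q.2 + u (tau q).1 * v (tau q).2 + x q.1 * u (tau q).1 +
      x q.1 * v (tau q).2 + y q.2 * u (tau q).1 + y q.2 * v (tau q).2) * (zz q + ww q) * hh
  rw [Finset.sum_congr rfl fun q _ => hpt q]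
  simp only [Finset.sum_add_distrib, mul_sub, Finset.sum_sub_distrib, ← Finset.smul_sum]
  rw [← hQ1', ← hQ2']
  have e1 : ∑ m, LL1 m ^ 2 * x1 (.inr m) = ∑ m, x1 (.inr m) * LL1 m ^ 2 :=
    Finset.sum_congr rfl fun m _ => mul_comm _ _
  have e2 : ∑ m, LL2 m ^ 2 * x2 (.inr m) = ∑ m, x2 (.inr m) * LL2 m ^ 2 :=
    Finset.sum_congr rfl fun m _ => mul_comm _ _
  rw [e1, e2]
  module

end Pool.Agent.H92.WR
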